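import Pool.Agent.H.MP_5d95cf_gt.Local

namespace Pool.Agent.H.MP_5d95cf_gt

open Set Metric Matrix
open scoped Manifold ContDiff Topology

variable {n : ℕ} {M : Type*} [TopologicalSpace M] [ChartedSpace (Eu n) M]

namespace PoissonStructure

variable (P : PoissonStructure n M)

/-- `ham h p f = {f, h}(p)`. -/
noncomputable def ham (h : Sm n M) (p : M) : Sm n M →ₗ[ℝ] ℝ := (evL p).comp (P.br.flip h)

theorem ham_apply (h : Sm n M) (p : M) (f : Sm n M) : P.ham h p f = P.br f h p := rfl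

theorem isPD_ham (h : Sm n M) (p : M) : IsPD p (P.ham h p) := by
  intro f g
  rw [ham_apply, P.leibniz, Sm.add_apply, Sm.mul_apply, Sm.mul_apply]
  rfl

theorem leibniz_right (f g h : Sm n M) : P.br f (g * h) = g * P.br f h + h * P.br f g := by
  rw [P.skew, P.leibniz, P.skew g f, P.skew h f]
  ring

/-- `ham' f p h = {f, h}(p)`. -/
noncomputable def ham' (f : Sm n M) (p : M) : Sm n M →ₗ[ℝ] ℝ := (evL p).comp (P.br f)

theorem ham'_apply (f : Sm n M) (p : M) (h : Sm n M) : P.ham' f p h = P.br f h p := rfl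

theorem isPD_ham' (f : Sm n M) (p : M) : IsPD p (P.ham' f p) := by
  intro g h
  rw [ham'_apply, P.leibniz_right, Sm.add_apply, Sm.mul_apply, Sm.mul_apply]
  rfl

theorem br_add_left (f g h : Sm n M) : P.br (f + g) h = P.br f h + P.br g h := by
  rw [map_add]; rfl

theorem br_sub_left (f g h : Sm n M) : P.br (f - g) h = P.br f h - P.br g h := by
  rw [map_sub]; rfl

theorem br_sum_left {ι : Type*} (s : Finset ι) (f : ι → Sm n M) (h : Sm n M) :
    P.br (∑ i ∈ s, f i) h = ∑ i ∈ s, P.br (f i) h := by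
  rw [map_sum, LinearMap.sum_apply]

/-- The Jacobi identity in derivation form. -/
theorem jac (f g K : Sm n M) :
    P.br (P.br f g) K = P.br (P.br f K) g + P.br f (P.br g K) := by
  have h1 := P.jacobi f g K
  have h2 : P.br g (P.br K f) = P.br (P.br f K) g := by
    rw [P.skew g, P.skew K f, map_neg, LinearMap.neg_apply, neg_neg]
  have h3 : P.br K (P.br f g) = -P.br (P.br f g) K := P.skew _ _
  rw [h2, h3] at h1
  have h4 : P.br (P.br f g) K - (P.br (P.br f K) g + P.br f (P.br g K)) = 0 := by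
    rw [← neg_eq_zero, ← h1]
    abel
  exact sub_eq_zero.mp h4

end PoissonStructure

/-- Data of a local coframe/frame of rank `m`. -/
structure Frame (P : PoissonStructure n M) (m : ℕ) where
  /-- left functions -/
  a : Fin m → Sm n M
  /-- right functions -/
  g : Fin m → Sm n M
  /-- the inverse matrix -/
  b : Fin m → Fin m → Sm n M
  /-- where it is inverse -/
  W : Set M
  W_open : IsOpen W
  left : ∀ p ∈ W, ∀ i j, ∑ k, b i k p * P.br (a k) (g j) p = if i = j then 1 else 0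
  right : ∀ p ∈ W, ∀ i j, ∑ k, P.br (a i) (g k) p * b k j p = if i = j then 1 else 0

namespace Frame

variable {P : PoissonStructure n M} {m : ℕ} (F : Frame P m)

/-- The defect bivector. -/
noncomputable def T (f h : Sm n M) : Sm n M :=
  P.br f h - ∑ i, ∑ j, P.br f (F.g i) * F.b i j * P.br (F.a j) h

theorem T_apply (f h : Sm n M) (p : M) :
    F.T f h p = P.br f h p - ∑ i, ∑ j, P.br f (F.g i) p * F.b i j p * P.br (F.a j) h p := by
  simp only [T, Sm.sub_apply, Sm.sum_apply, Sm.mul_apply]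

/-- `T` at `p` with the second argument fixed. -/
noncomputable def TL (h : Sm n M) (p : M) : Sm n M →ₗ[ℝ] ℝ :=
  P.ham h p - ∑ i, ∑ j, (F.b i j p * P.br (F.a j) h p) • P.ham (F.g i) p

theorem TL_apply (h : Sm n M) (p : M) (f : Sm n M) : F.TL h p f = F.T f h p := by
  simp only [TL, T_apply, LinearMap.sub_apply, LinearMap.sum_apply, LinearMap.smul_apply,
    P.ham_apply, smul_eq_mul]
  congr 1
  refine Finset.sum_congr rfl fun i _ => Finset.sum_congr rfl fun j _ => ?_
  ring

theorem isPD_sub {p : M} {D D' : Sm n M →ₗ[ℝ] ℝ} (h : IsPD p D) (h' : IsPD p D') :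
    IsPD p (D - D') := by
  intro f g
  simp only [LinearMap.sub_apply, h f g, h' f g]
  ring

theorem isPD_smul {p : M} {D : Sm n M →ₗ[ℝ] ℝ} (h : IsPD p D) (c : ℝ) : IsPD p (c • D) := by
  intro f g
  simp only [LinearMap.smul_apply, h f g, smul_eq_mul]
  ring

theorem isPD_sum {ι : Type*} {p : M} (s : Finset ι) {D : ι → Sm n M →ₗ[ℝ] ℝ}
    (h : ∀ i ∈ s, IsPD p (D i)) : IsPD p (∑ i ∈ s, D i) := by
  intro f g
  simp only [LinearMap.sum_apply]
  rw [Finset.mul_sum, Finset.mul_sum, ← Finset.sum_add_distrib]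
  exact Finset.sum_congr rfl fun i hi => h i hi f g

theorem isPD_TL (h : Sm n M) (p : M) : IsPD p (F.TL h p) :=
  isPD_sub (P.isPD_ham h p)
    (isPD_sum _ fun i _ => isPD_sum _ fun _ _ => isPD_smul (P.isPD_ham (F.g i) p) _)

/-- `T` at `p` with the first argument fixed. -/
noncomputable def TR (f : Sm n M) (p : M) : Sm n M →ₗ[ℝ] ℝ :=
  P.ham' f p - ∑ i, ∑ j, (P.br f (F.g i) p * F.b i j p) • P.ham' (F.a j) p

theorem TR_apply (f : Sm n M) (p : M) (h : Sm n M) : F.TR f p h = F.T f h p := by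
  simp only [TR, T_apply, LinearMap.sub_apply, LinearMap.sum_apply, LinearMap.smul_apply,
    P.ham'_apply, smul_eq_mul]

theorem isPD_TR (f : Sm n M) (p : M) : IsPD p (F.TR f p) :=
  isPD_sub (P.isPD_ham' f p)
    (isPD_sum _ fun _ _ => isPD_sum _ fun j _ => isPD_smul (P.isPD_ham' (F.a j) p) _)

/-- The frame vector fields, `Y j f = ∑ i, b i j {f, g i}`. -/
noncomputable def Y (j : Fin m) (f : Sm n M) : Sm n M := ∑ i, F.b i j * P.br f (F.g i)

theorem Y_apply (j : Fin m) (f : Sm n M) (p : M) :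
    F.Y j f p = ∑ i, F.b i j p * P.br f (F.g i) p := by
  simp only [Y, Sm.sum_apply, Sm.mul_apply]

/-- `Y j` at a point, as a functional. -/
noncomputable def YD (j : Fin m) (p : M) : Sm n M →ₗ[ℝ] ℝ :=
  ∑ i, (F.b i j p) • P.ham (F.g i) p

theorem YD_apply (j : Fin m) (p : M) (f : Sm n M) : F.YD j p f = F.Y j f p := by
  simp only [YD, Y_apply, LinearMap.sum_apply, LinearMap.smul_apply, P.ham_apply, smul_eq_mul]

theorem isPD_YD (j : Fin m) (p : M) : IsPD p (F.YD j p) :=
  isPD_sum _ fun i _ => isPD_smul (P.isPD_ham (F.g i) p) _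

theorem Y_a {p : M} (hp : p ∈ F.W) (j q : Fin m) :
    F.Y j (F.a q) p = if q = j then 1 else 0 := by
  rw [Y_apply, ← F.right p hp q j]
  exact Finset.sum_congr rfl fun i _ => mul_comm _ _

theorem br_eq_of_T {p : M} (f h : Sm n M) (hT : F.T f h p = 0) :
    P.br f h p = ∑ j, P.br (F.a j) h p * F.Y j f p := by
  rw [T_apply, sub_eq_zero] at hT
  rw [hT, Finset.sum_comm]
  refine Finset.sum_congr rfl fun j _ => ?_
  rw [Y_apply, Finset.mul_sum]
  exact Finset.sum_congr rfl fun i _ => by ring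

end Frame

/-- Pure linear algebra used in the computation of the derivative of the defect. -/
theorem linAlg_key {m : ℕ} (r s r' c c' t : Fin m → ℝ) (B DB U W : Matrix (Fin m) (Fin m) ℝ)
    (E1 E2 : ℝ) (hDB : DB = -(B * (U + W) * B)) :
    E1 + E2 - ∑ i, ∑ j, (r i * B i j * (t j + c' j) + c j * (r i * DB i j + B i j * (r' i + s i)))
      = (E1 - ∑ i, ∑ j, r' i * B i j * c j) + (E2 - ∑ i, ∑ j, r i * B i j * c' j)
        - (∑ q, ∑ j, (s q - ∑ i, ∑ k, r i * B i k * W k q) * B q j * c j)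
        - ∑ i, ∑ k, r i * B i k * (t k - ∑ l, ∑ j, U k l * B l j * c j) := by
  have hA : ∀ (x y : Fin m → ℝ) (A : Matrix (Fin m) (Fin m) ℝ),
      ∑ i, ∑ j, x i * A i j * y j = x ⬝ᵥ (A *ᵥ y) := by
    intro x y A
    simp only [dotProduct, mulVec, Finset.mul_sum, mul_assoc]
  have h1 : ∑ i, ∑ j, (r i * B i j * (t j + c' j) + c j * (r i * DB i j + B i j * (r' i + s i)))
      = r ⬝ᵥ (B *ᵥ t) + r ⬝ᵥ (B *ᵥ c') + r ⬝ᵥ (DB *ᵥ c) + r' ⬝ᵥ (B *ᵥ c) + s ⬝ᵥ (B *ᵥ c) := by
    rw [← hA, ← hA, ← hA, ← hA, ← hA, ← Finset.sum_add_distrib, ← Finset.sum_add_distrib,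
      ← Finset.sum_add_distrib, ← Finset.sum_add_distrib]
    refine Finset.sum_congr rfl fun i _ => ?_
    rw [← Finset.sum_add_distrib, ← Finset.sum_add_distrib,
      ← Finset.sum_add_distrib, ← Finset.sum_add_distrib]
    exact Finset.sum_congr rfl fun j _ => by ring
  have h2 : ∀ q, ∑ i, ∑ k, r i * B i k * W k q = (r ᵥ* (B * W)) q := by
    intro q
    have : (r ᵥ* (B * W)) q = r ⬝ᵥ (B *ᵥ (fun k => W k q)) := by
      rw [← vecMul_vecMul, dotProduct_mulVec]
      rfl
    rw [this, ← hA]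
  have h3 : ∑ q, ∑ j, (s q - ∑ i, ∑ k, r i * B i k * W k q) * B q j * c j
      = s ⬝ᵥ (B *ᵥ c) - r ⬝ᵥ ((B * W * B) *ᵥ c) := by
    have : ∑ q, ∑ j, (s q - ∑ i, ∑ k, r i * B i k * W k q) * B q j * c j
        = (fun q => s q - (r ᵥ* (B * W)) q) ⬝ᵥ (B *ᵥ c) := by
      rw [← hA]
      simp only [h2]
    rw [this]
    have h4 : (fun q => s q - (r ᵥ* (B * W)) q) = s - r ᵥ* (B * W) := rfl
    rw [h4, sub_dotProduct, ← dotProduct_mulVec, mulVec_mulVec]
  have h5 : ∀ k, ∑ l, ∑ j, U k l * B l j * c j = (U *ᵥ (B *ᵥ c)) k := by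
    intro k
    rw [hA (U k) c B]
    rfl
  have h6 : ∑ i, ∑ k, r i * B i k * (t k - ∑ l, ∑ j, U k l * B l j * c j)
      = r ⬝ᵥ (B *ᵥ t) - r ⬝ᵥ ((B * U * B) *ᵥ c) := by
    have : ∑ i, ∑ k, r i * B i k * (t k - ∑ l, ∑ j, U k l * B l j * c j)
        = r ⬝ᵥ (B *ᵥ (fun k => t k - (U *ᵥ (B *ᵥ c)) k)) := by
      rw [← hA]
      simp only [h5]
    rw [this]
    have h4 : (fun k => t k - (U *ᵥ (B *ᵥ c)) k) = t - U *ᵥ (B *ᵥ c) := rfl
    rw [h4, mulVec_sub, dotProduct_sub, mulVec_mulVec, mulVec_mulVec]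
  have h7 : r ⬝ᵥ (DB *ᵥ c) = -(r ⬝ᵥ ((B * U * B) *ᵥ c)) - r ⬝ᵥ ((B * W * B) *ᵥ c) := by
    rw [hDB, neg_mulVec, dotProduct_neg, mul_add, add_mul, add_mulVec, dotProduct_add]
    ring
  rw [h1, h3, h6, h7, hA, hA]
  ring

namespace Frame

variable {P : PoissonStructure n M} {m : ℕ} (F : Frame P m)

theorem ham_locConst [T2Space M] [IsManifold (𝓡 n) ∞ M] {p : M} (f : Sm n M) (c : ℝ)
    {D : Sm n M →ₗ[ℝ] ℝ} (hD : IsPD p D) (h : ∀ᶠ q in 𝓝 p, f q = c) : D f = 0 := by
  have h1 : D f = D (c • (1 : Sm n M)) := by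
    apply hD.congr
    filter_upwards [h] with q hq
    rw [hq, Sm.smul_apply, Sm.one_apply, mul_one]
  rw [h1, map_smul, hD.one, smul_zero]

/-- The derivative of the defect bivector along a Hamiltonian vector field. -/
theorem br_T [T2Space M] [IsManifold (𝓡 n) ∞ M] {p : M} (hp : p ∈ F.W) (f h K : Sm n M) :
    P.br (F.T f h) K p = F.T (P.br f K) h p + F.T f (P.br h K) p
      - (∑ q, ∑ j, F.T f (P.br (F.g q) K) p * F.b q j p * P.br (F.a j) h p)
      - ∑ i, ∑ k, P.br f (F.g i) p * F.b i k p * F.T (P.br (F.a k) K) h p := by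
  have hD := P.isPD_ham K p
  -- the matrices
  let B : Matrix (Fin m) (Fin m) ℝ := fun i j => F.b i j p
  let C : Matrix (Fin m) (Fin m) ℝ := fun i j => P.br (F.a i) (F.g j) p
  let DB : Matrix (Fin m) (Fin m) ℝ := fun i j => P.br (F.b i j) K p
  let U : Matrix (Fin m) (Fin m) ℝ := fun i j => P.br (P.br (F.a i) K) (F.g j) p
  let W : Matrix (Fin m) (Fin m) ℝ := fun i j => P.br (F.a i) (P.br (F.g j) K) p
  have hCB : C * B = 1 := by
    ext i j
    rw [mul_apply, one_apply]
    exact F.right p hp i j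
  have hrel : DB * C + B * (U + W) = 0 := by
    ext i j
    have h1 : P.ham K p (∑ k, F.b i k * P.br (F.a k) (F.g j)) = 0 := by
      refine ham_locConst _ (if i = j then 1 else 0) hD ?_
      filter_upwards [F.W_open.mem_nhds hp] with q hq
      rw [Sm.sum_apply]
      simp only [Sm.mul_apply]
      exact F.left q hq i j
    rw [map_sum] at h1
    rw [Matrix.add_apply, mul_apply, mul_apply, Matrix.zero_apply, ← Finset.sum_add_distrib, ← h1]
    refine Finset.sum_congr rfl fun k _ => ?_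
    rw [hD, P.ham_apply, P.ham_apply, P.jac, Sm.add_apply]
    show P.br (F.b i k) K p * P.br (F.a k) (F.g j) p + F.b i k p *
      (P.br (P.br (F.a k) K) (F.g j) p + P.br (F.a k) (P.br (F.g j) K) p) = _
    ring
  have hDB : DB = -(B * (U + W) * B) := by
    have h2 : DB * C = -(B * (U + W)) := eq_neg_of_add_eq_zero_left hrel
    calc DB = DB * (C * B) := by rw [hCB, mul_one]
      _ = (DB * C) * B := by rw [mul_assoc]
      _ = -(B * (U + W) * B) := by rw [h2, neg_mul]
  have key := linAlg_key (fun i => P.br f (F.g i) p) (fun i => P.br f (P.br (F.g i) K) p)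
    (fun i => P.br (P.br f K) (F.g i) p) (fun j => P.br (F.a j) h p)
    (fun j => P.br (F.a j) (P.br h K) p) (fun j => P.br (P.br (F.a j) K) h p) B DB U W
    (P.br (P.br f K) h p) (P.br f (P.br h K) p) hDB
  have hL : P.br (F.T f h) K p = P.br (P.br f K) h p + P.br f (P.br h K) p
      - ∑ i, ∑ j, (P.br f (F.g i) p * B i j * (P.br (P.br (F.a j) K) h p
          + P.br (F.a j) (P.br h K) p)
        + P.br (F.a j) h p * (P.br f (F.g i) p * DB i j
          + B i j * (P.br (P.br f K) (F.g i) p + P.br f (P.br (F.g i) K) p))) := by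
    rw [← P.ham_apply, T, map_sub, map_sum, P.ham_apply, P.jac, Sm.add_apply]
    congr 1
    refine Finset.sum_congr rfl fun i _ => ?_
    rw [map_sum]
    refine Finset.sum_congr rfl fun j _ => ?_
    rw [hD, hD, P.ham_apply, P.ham_apply, P.ham_apply, P.jac (F.a j) h K, P.jac f (F.g i) K,
      Sm.add_apply, Sm.add_apply, Sm.mul_apply]
  rw [hL, key]
  simp only [T_apply]
  rfl

/-- Commutation of the frame fields where the defect vanishes. -/
theorem Y_comm [T2Space M] [IsManifold (𝓡 n) ∞ M] {p : M} (hp : p ∈ F.W)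
    (hT : ∀ f h, F.T f h p = 0) (i j : Fin m) (f : Sm n M) :
    F.Y i (F.Y j f) p = F.Y j (F.Y i f) p := by
  have hexp : ∀ (i j : Fin m) (f : Sm n M), F.Y i (F.Y j f) p
      = ∑ k, ∑ l, F.b k i p * F.b l j p * P.br (P.br f (F.g l)) (F.g k) p
        + ∑ l, (∑ k, F.b k i p * P.br (F.b l j) (F.g k) p) * P.br f (F.g l) p := by
    intro i j f
    have h1 : ∑ l, (∑ k, F.b k i p * P.br (F.b l j) (F.g k) p) * P.br f (F.g l) p
        = ∑ k, ∑ l, F.b k i p * P.br (F.b l j) (F.g k) p * P.br f (F.g l) p := by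
      simp only [Finset.sum_mul]
      rw [Finset.sum_comm]
    rw [h1, ← Finset.sum_add_distrib, Y_apply]
    refine Finset.sum_congr rfl fun k _ => ?_
    rw [← Finset.sum_add_distrib, Y, ← P.ham_apply, map_sum, Finset.mul_sum]
    refine Finset.sum_congr rfl fun l _ => ?_
    rw [P.isPD_ham, P.ham_apply, P.ham_apply]
    ring
  -- the coefficients
  set α : Fin m → ℝ := fun r =>
    (∑ k, ∑ l, F.b k i p * F.b l j p * ∑ s, F.b r s p * P.br (F.a s) (P.br (F.g l) (F.g k)) p)
      + (∑ k, F.b k i p * P.br (F.b r j) (F.g k) p)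
      - ∑ k, F.b k j p * P.br (F.b r i) (F.g k) p with hα
  have hdiff : ∀ f : Sm n M, F.Y i (F.Y j f) p - F.Y j (F.Y i f) p
      = ∑ r, α r * P.br f (F.g r) p := by
    intro f
    rw [hexp i j f, hexp j i f]
    have h2 : ∑ k, ∑ l, F.b k j p * F.b l i p * P.br (P.br f (F.g l)) (F.g k) p
        = ∑ k, ∑ l, F.b k i p * F.b l j p * P.br (P.br f (F.g k)) (F.g l) p := by
      rw [Finset.sum_comm]
      refine Finset.sum_congr rfl fun k _ => Finset.sum_congr rfl fun l _ => ?_
      ring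
    have h3 : ∑ k, ∑ l, F.b k i p * F.b l j p * P.br (P.br f (F.g l)) (F.g k) p
        - ∑ k, ∑ l, F.b k i p * F.b l j p * P.br (P.br f (F.g k)) (F.g l) p
        = ∑ r, (∑ k, ∑ l, F.b k i p * F.b l j p *
            ∑ s, F.b r s p * P.br (F.a s) (P.br (F.g l) (F.g k)) p) * P.br f (F.g r) p := by
      simp only [Finset.sum_mul]
      rw [← Finset.sum_sub_distrib, Finset.sum_comm]
      refine Finset.sum_congr rfl fun k _ => ?_
      rw [← Finset.sum_sub_distrib, Finset.sum_comm]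
      refine Finset.sum_congr rfl fun l _ => ?_
      have h4 : P.br (P.br f (F.g l)) (F.g k) p - P.br (P.br f (F.g k)) (F.g l) p
          = P.br f (P.br (F.g l) (F.g k)) p := by
        rw [P.jac f (F.g l) (F.g k), Sm.add_apply]
        ring
      rw [← mul_sub, h4]
      have h5 := hT f (P.br (F.g l) (F.g k))
      rw [T_apply, sub_eq_zero] at h5
      rw [h5, Finset.mul_sum]
      refine Finset.sum_congr rfl fun r _ => ?_
      simp only [Finset.mul_sum, Finset.sum_mul]
      refine Finset.sum_congr rfl fun s _ => ?_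
      ring
    rw [h2]
    have h6 : ∑ r, α r * P.br f (F.g r) p
        = (∑ r, (∑ k, ∑ l, F.b k i p * F.b l j p *
            ∑ s, F.b r s p * P.br (F.a s) (P.br (F.g l) (F.g k)) p) * P.br f (F.g r) p)
          + (∑ r, (∑ k, F.b k i p * P.br (F.b r j) (F.g k) p) * P.br f (F.g r) p)
          - ∑ r, (∑ k, F.b k j p * P.br (F.b r i) (F.g k) p) * P.br f (F.g r) p := by
      rw [← Finset.sum_add_distrib, ← Finset.sum_sub_distrib]
      refine Finset.sum_congr rfl fun r _ => ?_
      rw [hα]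
      ring
    rw [h6, ← h3]
    ring
  have hα0 : ∀ r, α r = 0 := by
    have hq : ∀ q, ∑ r, α r * P.br (F.a q) (F.g r) p = 0 := by
      intro q
      rw [← hdiff (F.a q)]
      have hloc : ∀ (i j : Fin m), F.Y i (F.Y j (F.a q)) p = 0 := by
        intro i j
        rw [← F.YD_apply]
        refine ham_locConst _ (if q = j then 1 else 0) (F.isPD_YD i p) ?_
        filter_upwards [F.W_open.mem_nhds hp] with p' hp'
        exact F.Y_a hp' j q
      rw [hloc, hloc, sub_zero]
    intro r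
    have h7 : ∑ q, F.b r q p * ∑ s, α s * P.br (F.a q) (F.g s) p = α r := by
      calc ∑ q, F.b r q p * ∑ s, α s * P.br (F.a q) (F.g s) p
          = ∑ q, ∑ s, α s * (F.b r q p * P.br (F.a q) (F.g s) p) := by
            refine Finset.sum_congr rfl fun q _ => ?_
            rw [Finset.mul_sum]
            exact Finset.sum_congr rfl fun s _ => by ring
        _ = ∑ s, α s * ∑ q, (F.b r q p * P.br (F.a q) (F.g s) p) := by
            rw [Finset.sum_comm]
            simp only [Finset.mul_sum]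
        _ = ∑ s, α s * (if r = s then 1 else 0) := by
            simp only [F.left p hp]
        _ = α r := by simp
    rw [← h7]
    simp [hq]
  have := hdiff f
  simp only [hα0, zero_mul, Finset.sum_const_zero] at this
  exact sub_eq_zero.mp this

end Frame

end Pool.Agent.H.MP_5d95cf_gt
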