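import Pool.Agent.H.MP_5d95cf_gt.Main

namespace Pool.Agent.H.MP_5d95cf_gt

open Set Filter Metric
open scoped Manifold ContDiff Topology

variable {n : ℕ} {M : Type*} [TopologicalSpace M] [ChartedSpace (Eu n) M]
variable {P : PoissonStructure n M} {m : ℕ}

section

variable {y0 : M} {F : Frame P m} {ch : LChart n y0} {K C r ε : ℝ} {V' : Set M}

theorem Good.psi_zero (h : Good F ch K C r ε V') : psi F ch 0 y0 = y0 := by
  have h1 := h.nice.norm_flow_sub_le 0 (ch.X y0) (t := 1) ⟨by norm_num, by norm_num⟩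
  rw [norm_zero, mul_zero, zero_mul, zero_mul] at h1
  rw [psi, phi, sub_eq_zero.mp (norm_le_zero_iff.mp h1), ch.σ_X y0 ch.mem]

/-- The derivative of the time one map, at points of the good ball. -/
theorem Good.phi_hasFDerivAt [T2Space M] [IsManifold (𝓡 n) ∞ M] (h : Good F ch K C r ε V')
    (hT : ∀ f g, F.T f g y0 = 0) {v : Fin m → ℝ} (hv : ‖v‖ ≤ ε) :
    HasFDerivAt (fun w => phi (vf F ch) w (ch.X y0))
      (∑ i, (ContinuousLinearMap.proj (R := ℝ) (φ := fun _ : Fin m => ℝ) i).smulRight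
        (vf F ch i (phi (vf F ch) v (ch.X y0)))) v :=
  h.hasFDerivAt h.mem_nbd hT hv

theorem Good.phi_smooth [T2Space M] [IsManifold (𝓡 n) ∞ M] (h : Good F ch K C r ε V')
    (hT : ∀ f g, F.T f g y0 = 0) :
    ContDiffOn ℝ ∞ (fun w => phi (vf F ch) w (ch.X y0)) (ball 0 ε) := by
  rw [contDiffOn_infty]
  intro k
  induction k with
  | zero =>
    rw [Nat.cast_zero, contDiffOn_zero]
    intro v hv
    rw [mem_ball_zero_iff] at hv
    exact (h.phi_hasFDerivAt hT hv.le).continuousAt.continuousWithinAt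
  | succ k ih =>
    rw [Nat.cast_succ, contDiffOn_succ_iff_fderiv_of_isOpen isOpen_ball]
    refine ⟨?_, ?_, ?_⟩
    · intro v hv
      rw [mem_ball_zero_iff] at hv
      exact (h.phi_hasFDerivAt hT hv.le).differentiableAt.differentiableWithinAt
    · intro hω
      exact absurd hω (by exact_mod_cast WithTop.coe_ne_top)
    · have h1 : ContDiffOn ℝ k (fun v => ∑ i,
          (ContinuousLinearMap.proj (R := ℝ) (φ := fun _ : Fin m => ℝ) i).smulRight
            (vf F ch i (phi (vf F ch) v (ch.X y0)))) (ball 0 ε) := by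
        refine ContDiffOn.sum fun i _ => ?_
        have h2 : ContDiffOn ℝ k (fun v => vf F ch i (phi (vf F ch) v (ch.X y0))) (ball 0 ε) :=
          ((vf_contDiff F ch i).of_le (by exact_mod_cast le_top)).comp_contDiffOn ih
        exact contDiffOn_const.smulRight h2
      refine h1.congr fun v hv => ?_
      rw [mem_ball_zero_iff] at hv
      exact (h.phi_hasFDerivAt hT hv.le).fderiv

theorem Good.psi_mem (h : Good F ch K C r ε V') {v : Fin m → ℝ} (hv : ‖v‖ ≤ ε) :
    psi F ch v y0 ∈ ch.V ∧ psi F ch v y0 ∈ F.W ∩ V' :=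
  h.curve_mem h.mem_nbd hv ⟨by norm_num, by norm_num⟩

theorem Good.psi_smooth [T2Space M] [IsManifold (𝓡 n) ∞ M] (h : Good F ch K C r ε V')
    (hT : ∀ f g, F.T f g y0 = 0) :
    ContMDiffOn 𝓘(ℝ, Fin m → ℝ) (𝓡 n) ∞ (fun v => psi F ch v y0) (ball 0 ε) := by
  have h1 : ContMDiffOn 𝓘(ℝ, Fin m → ℝ) 𝓘(ℝ, Eu n) ∞
      (fun w => phi (vf F ch) w (ch.X y0)) (ball 0 ε) := (h.phi_smooth hT).contMDiffOn
  refine ch.σ_smooth.comp h1 fun v hv => ?_
  rw [mem_ball_zero_iff] at hv
  exact ball_subset_ball h.r_le (h.flow_mem h.mem_nbd hv.le ⟨by norm_num, by norm_num⟩)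

/-- The derivatives of functions along the parametrization. -/
theorem Good.psi_fderiv [T2Space M] [IsManifold (𝓡 n) ∞ M] (h : Good F ch K C r ε V')
    (hT : ∀ f g, F.T f g y0 = 0) {v : Fin m → ℝ} (hv : v ∈ ball (0 : Fin m → ℝ) ε)
    (w : Fin m → ℝ) (f : Sm n M) :
    fderiv ℝ (fun u => f (psi F ch u y0)) v w = ∑ j, w j * F.Y j f (psi F ch v y0) := by
  have hv' := mem_ball_zero_iff.mp hv
  have hmem : ∀ u ∈ ball (0 : Fin m → ℝ) ε,
      phi (vf F ch) u (ch.X y0) ∈ ball (ch.X y0) ch.r := by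
    intro u hu
    rw [mem_ball_zero_iff] at hu
    exact ball_subset_ball h.r_le (h.flow_mem h.mem_nbd hu.le ⟨by norm_num, by norm_num⟩)
  have h1 : (fun u => f (psi F ch u y0)) =ᶠ[𝓝 v]
      fun u => ch.rep f (phi (vf F ch) u (ch.X y0)) := by
    filter_upwards [isOpen_ball.mem_nhds hv] with u hu
    show f (ch.σ (phi (vf F ch) u (ch.X y0))) = _
    rw [ch.rep_eq f (ch.σ_mem _ (hmem u hu)), ch.X_σ _ (hmem u hu)]
  rw [h1.fderiv_eq]
  have h2 : HasFDerivAt (ch.rep f) (fderiv ℝ (ch.rep f) (phi (vf F ch) v (ch.X y0)))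
      (phi (vf F ch) v (ch.X y0)) :=
    ((ch.rep_contDiff f).differentiable (by simp) _).hasFDerivAt
  have h3 := h2.comp v (h.phi_hasFDerivAt hT hv'.le)
  have h4 : fderiv ℝ (fun u => ch.rep f (phi (vf F ch) u (ch.X y0))) v w
      = fderiv ℝ (ch.rep f) (phi (vf F ch) v (ch.X y0))
        (comb (vf F ch) w (phi (vf F ch) v (ch.X y0))) := by
    have h5 : fderiv ℝ (fun u => ch.rep f (phi (vf F ch) u (ch.X y0))) v = _ := h3.fderiv
    rw [h5]
    simp [comb]
  rw [h4]
  have hp : psi F ch v y0 ∈ ch.V := (h.psi_mem hv'.le).1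
  have hX : ch.X (psi F ch v y0) = phi (vf F ch) v (ch.X y0) := ch.X_σ _ (hmem v hv)
  rw [← hX, comb_vf F ch w hp, ch.pd_vec f hp
    (Frame.isPD_sum _ fun j _ => Frame.isPD_smul (F.isPD_YD j _) _)]
  simp [LinearMap.sum_apply, F.YD_apply]

end

theorem Reach.mem_of_mem {U : Set M} {y z : M} (h : Reach P U y z) (hy : y ∈ U) : z ∈ U := by
  rcases Relation.ReflTransGen.cases_tail h with h1 | ⟨w, -, hw⟩
  · rw [h1]
    exact hy
  · obtain ⟨H, γ, T, hT, -, h1, hU, -⟩ := hw
    rw [← h1]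
    exact hU T (right_mem_Icc.mpr hT)

/-- Leaves are immersed submanifolds, for the leaf topology. -/
theorem isIntegralLeaf [T2Space M] [IsManifold (𝓡 n) ∞ M] (P : PoissonStructure n M)
    (L : Set M) (hL : IsLeaf P L) : IsIntegralLeaf P L := by
  intro x hx
  obtain ⟨x0, rfl⟩ := hL
  obtain ⟨m, ⟨a, g, hdet⟩, hm1⟩ := exists_rank P x
  obtain ⟨F, hFW⟩ := exists_frame P a g hdet
  have hT : ∀ f g, F.T f g x = 0 := fun f g => F.T_eq_zero hFW hm1 f g
  obtain ⟨ch⟩ := exists_LChart (n := n) x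
  obtain ⟨K, C, r, ε1, g1⟩ := exists_good F ch hFW isOpen_univ (mem_univ x)
  set N1 := nbd F ch r ε1 with hN1
  have hN1o : IsOpen N1 := isOpen_nbd F ch r ε1
  obtain ⟨K2, C2, r2, ε, g2⟩ := exists_good F ch hFW hN1o g1.mem_nbd
  set c : (Fin m → ℝ) → M := fun v => psi F ch v x with hc
  set A : M → Fin m → ℝ := fun p => F.A p - F.A x with hA
  have hAc : ∀ v ∈ ball (0 : Fin m → ℝ) ε, A (c v) = v := by
    intro v hv
    rw [mem_ball_zero_iff] at hv
    show F.A (psi F ch v x) - F.A x = v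
    rw [g2.A_psi g2.mem_nbd hv.le, add_sub_cancel_left]
  have hAs : ContMDiff (𝓡 n) 𝓘(ℝ, Fin m → ℝ) ∞ A := by
    rw [contMDiff_pi_space]
    intro i
    exact (F.a i).contMDiff.sub contMDiff_const
  have hAcont : Continuous A := hAs.continuous
  have hreach : ∀ v ∈ ball (0 : Fin m → ℝ) ε, Reach P N1 x (c v) := by
    intro v hv
    rw [mem_ball_zero_iff] at hv
    exact g2.realize hv.le
  have hcN1 : ∀ v ∈ ball (0 : Fin m → ℝ) ε, c v ∈ N1 := by
    intro v hv
    rw [mem_ball_zero_iff] at hv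
    exact (g2.psi_mem hv.le).2.2
  have hcW : ∀ v ∈ ball (0 : Fin m → ℝ) ε, c v ∈ F.W := by
    intro v hv
    rw [mem_ball_zero_iff] at hv
    exact (g2.psi_mem hv.le).2.1
  have hL' : ∀ v ∈ ball (0 : Fin m → ℝ) ε, c v ∈ {y | Reach P univ x0 y} := by
    intro v hv
    exact Relation.ReflTransGen.trans hx ((hreach v hv).mono (subset_univ _))
  -- points reachable inside N1 are parametrized
  have hpar : ∀ z, Reach P N1 x z → z = c (A z) := fun z hz =>
    g1.reach_eq g1.mem_nbd hT hz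
  have hTc : ∀ v ∈ ball (0 : Fin m → ℝ) ε, ∀ f g, F.T f g (c v) = 0 := by
    intro v hv f g
    rw [mem_ball_zero_iff] at hv
    exact g2.T_zero_curve g2.mem_nbd hT hv.le (right_mem_Icc.mpr zero_le_one) f g
  -- images of open sets are open in the leaf topology
  have hopen : ∀ O : Set (Fin m → ℝ), IsOpen O → O ⊆ ball 0 ε →
      IsOpen[leafTop P] (c '' O) := by
    intro O hO hOε p hp
    obtain ⟨v1, hv1, rfl⟩ := hp
    refine ⟨N1 ∩ A ⁻¹' O, hN1o.inter (hO.preimage hAcont), ⟨hcN1 v1 (hOε hv1), ?_⟩, ?_⟩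
    · show A (c v1) ∈ O
      rw [hAc v1 (hOε hv1)]
      exact hv1
    · intro y hy
      have h1 : y ∈ N1 ∩ A ⁻¹' O := hy.mem_of_mem ⟨hcN1 v1 (hOε hv1), by
        show A (c v1) ∈ O
        rw [hAc v1 (hOε hv1)]
        exact hv1⟩
      have h2 : Reach P N1 x y := (hreach v1 (hOε hv1)).trans (hy.mono inter_subset_left)
      exact ⟨A y, h1.2, (hpar y h2).symm⟩
  -- continuity for the leaf topology
  have hcont : ∀ s : Set M, IsOpen[leafTop P] s → ∀ v1 ∈ ball (0 : Fin m → ℝ) ε, c v1 ∈ s →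
      ∀ᶠ v in 𝓝 v1, c v ∈ s := by
    intro s hs v1 hv1 hvs
    obtain ⟨U, hU, hcU, hUs⟩ := hs (c v1) hvs
    obtain ⟨ch1⟩ := exists_LChart (n := n) (c v1)
    obtain ⟨K3, C3, r3, ε3, g3⟩ := exists_good F ch1 (hcW v1 hv1) (hU.inter hN1o)
      ⟨hcU, hcN1 v1 hv1⟩
    filter_upwards [ball_mem_nhds v1 g3.ε_pos] with v hv
    have hw : ‖v - v1‖ ≤ ε3 := by
      rw [mem_ball, dist_eq_norm] at hv
      exact hv.le
    set z := psi F ch1 (v - v1) (c v1) with hz
    have h1 : Reach P (U ∩ N1) (c v1) z := g3.realize hw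
    have h2 : F.A z = F.A (c v1) + (v - v1) := g3.A_psi g3.mem_nbd hw
    have h3 : Reach P N1 x z := (hreach v1 hv1).trans (h1.mono inter_subset_right)
    have h4 : A z = v := by
      have h5 : F.A (c v1) - F.A x = v1 := hAc v1 hv1
      show F.A z - F.A x = v
      rw [h2]
      calc F.A (c v1) + (v - v1) - F.A x = (F.A (c v1) - F.A x) + (v - v1) := by abel
        _ = v := by rw [h5]; abel
    have h6 : z = c v := by
      have := hpar z h3
      rwa [h4] at this
    rw [← h6]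
    exact hUs z (h1.mono inter_subset_left)
  refine ⟨m, ε, c, A, g2.ε_pos, g2.psi_zero, ⟨g2.psi_smooth hT, hAs, hAc⟩, ?_, hL', ?_⟩
  · intro v hv
    ext D
    constructor
    · rintro ⟨w, rfl⟩
      refine ⟨∑ k, (∑ j, w j * F.b k j (c v)) • F.g k, ?_⟩
      funext f
      have h1 : velocity c v w f = ∑ j, w j * F.Y j f (c v) := g2.psi_fderiv hT hv w f
      show P.br f (∑ k, (∑ j, w j * F.b k j (c v)) • F.g k) (c v) = velocity c v w f
      rw [h1, map_sum, Sm.sum_apply]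
      simp only [map_smul, Sm.smul_apply, F.Y_apply, Finset.mul_sum, Finset.sum_mul, mul_assoc]
      rw [Finset.sum_comm]
    · rintro ⟨H, rfl⟩
      refine ⟨fun j => P.br (F.a j) H (c v), ?_⟩
      funext f
      have h1 : velocity c v (fun j => P.br (F.a j) H (c v)) f
          = ∑ j, P.br (F.a j) H (c v) * F.Y j f (c v) := g2.psi_fderiv hT hv _ f
      show velocity c v (fun j => P.br (F.a j) H (c v)) f = P.br f H (c v)
      rw [h1, F.br_eq_of_T f H (hTc v hv f H)]
  · let t2 : TopologicalSpace {y | Reach P univ x0 y} := leafTopOn P {y | Reach P univ x0 y}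
    refine @Topology.IsOpenEmbedding.of_continuous_injective_isOpenMap
      (ball (0 : Fin m → ℝ) ε) {y | Reach P univ x0 y} (fun v => ⟨c v, hL' v v.2⟩)
      inferInstance t2 ?_ ?_ ?_
    · have hcd : @Continuous (ball (0 : Fin m → ℝ) ε) M _ (leafTop P) (fun v => c v) := by
        refine @Continuous.mk (ball (0 : Fin m → ℝ) ε) M _ (leafTop P) _ ?_
        intro s hs
        rw [isOpen_iff_mem_nhds]
        intro v hv
        have h1 : ∀ᶠ u in 𝓝 (v : Fin m → ℝ), c u ∈ s := hcont s hs v.1 v.2 hv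
        have h2 : Tendsto (Subtype.val : ball (0 : Fin m → ℝ) ε → (Fin m → ℝ)) (𝓝 v) (𝓝 v.1) :=
          continuous_subtype_val.tendsto v
        exact h2.eventually h1
      exact continuous_induced_rng.mpr hcd
    · intro v v' hvv
      have h1 : c v = c v' := congrArg Subtype.val hvv
      apply Subtype.ext
      rw [← hAc v v.2, ← hAc v' v'.2, h1]
    · intro O hO
      obtain ⟨O', hO', rfl⟩ := isOpen_induced_iff.mp hO
      refine (@isOpen_induced_iff {y | Reach P univ x0 y} M (leafTop P) _ Subtype.val).mpr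
        ⟨c '' (O' ∩ ball 0 ε), ?_, ?_⟩
      · exact hopen _ (hO'.inter isOpen_ball) inter_subset_right
      · ext z
        constructor
        · rintro ⟨v, ⟨hv1, hv2⟩, hvz⟩
          exact ⟨⟨v, hv2⟩, hv1, Subtype.ext hvz⟩
        · rintro ⟨v, hv, rfl⟩
          exact ⟨v.1, ⟨hv, v.2⟩, rfl⟩

end Pool.Agent.H.MP_5d95cf_gt
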