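import Mathlib

namespace Pool.Agent.H.MP_5d95cf_gt

open Set Metric
open scoped NNReal Topology

section

variable {E : Type} [NormedAddCommGroup E] [NormedSpace ℝ E] {m : ℕ}

/-- The linear combination of a family of vector fields. -/
def comb (Y : Fin m → E → E) (v : Fin m → ℝ) (x : E) : E := ∑ i, v i • Y i x

/-- A family of vector fields which is bounded and Lipschitz together with its derivatives. -/
structure NiceFam (Y : Fin m → E → E) (K M : ℝ) : Prop where
  K_nonneg : 0 ≤ K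
  M_nonneg : 0 ≤ M
  lip : ∀ i x y, ‖Y i x - Y i y‖ ≤ K * ‖x - y‖
  bdd : ∀ i x, ‖Y i x‖ ≤ M
  diff : ∀ i, Differentiable ℝ (Y i)
  lipD : ∀ i x y, ‖fderiv ℝ (Y i) x - fderiv ℝ (Y i) y‖ ≤ K * ‖x - y‖

variable {Y : Fin m → E → E} {K M : ℝ}

theorem comb_add (v w : Fin m → ℝ) (x : E) : comb Y (v + w) x = comb Y v x + comb Y w x := by
  simp [comb, add_smul, Finset.sum_add_distrib]

theorem comb_sub (v w : Fin m → ℝ) (x : E) : comb Y (v - w) x = comb Y v x - comb Y w x := by
  simp [comb, sub_smul, Finset.sum_sub_distrib]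

theorem comb_smul (c : ℝ) (v : Fin m → ℝ) (x : E) : comb Y (c • v) x = c • comb Y v x := by
  simp [comb, Finset.smul_sum, smul_smul]

theorem comb_zero (x : E) : comb Y 0 x = 0 := by simp [comb]

theorem norm_sum_smul_le {F : Type*} [NormedAddCommGroup F] [NormedSpace ℝ F]
    (v : Fin m → ℝ) (z : Fin m → F) {C : ℝ} (hz : ∀ i, ‖z i‖ ≤ C) :
    ‖∑ i, v i • z i‖ ≤ m * ‖v‖ * C := by
  calc ‖∑ i, v i • z i‖ ≤ ∑ i, ‖v i • z i‖ := norm_sum_le _ _
    _ ≤ ∑ _i : Fin m, ‖v‖ * C := by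
        refine Finset.sum_le_sum fun i _ => ?_
        rw [norm_smul]
        exact mul_le_mul (norm_le_pi_norm v i) (hz i) (norm_nonneg _) (norm_nonneg _)
    _ = m * ‖v‖ * C := by simp [mul_assoc]

theorem NiceFam.norm_comb_le (h : NiceFam Y K M) (v : Fin m → ℝ) (x : E) :
    ‖comb Y v x‖ ≤ m * ‖v‖ * M :=
  norm_sum_smul_le v _ fun i => h.bdd i x

theorem NiceFam.comb_lip (h : NiceFam Y K M) (v : Fin m → ℝ) (x y : E) :
    ‖comb Y v x - comb Y v y‖ ≤ m * ‖v‖ * K * ‖x - y‖ := by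
  have h1 : comb Y v x - comb Y v y = ∑ i, v i • (Y i x - Y i y) := by
    simp [comb, smul_sub, Finset.sum_sub_distrib]
  rw [h1, mul_assoc]
  exact norm_sum_smul_le v _ fun i => h.lip i x y

/-- derivative of the combination -/
noncomputable def dcomb (Y : Fin m → E → E) (v : Fin m → ℝ) (x : E) : E →L[ℝ] E :=
  ∑ i, v i • fderiv ℝ (Y i) x

theorem NiceFam.hasFDerivAt_comb (h : NiceFam Y K M) (v : Fin m → ℝ) (x : E) :
    HasFDerivAt (comb Y v) (dcomb Y v x) x := by
  have : HasFDerivAt (fun x => ∑ i, v i • Y i x) (∑ i, v i • fderiv ℝ (Y i) x) x :=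
    HasFDerivAt.fun_sum fun i _ => ((h.diff i x).hasFDerivAt).const_smul (v i)
  exact this

theorem NiceFam.dcomb_lip (h : NiceFam Y K M) (v : Fin m → ℝ) (x y : E) :
    ‖dcomb Y v x - dcomb Y v y‖ ≤ m * ‖v‖ * (K * ‖x - y‖) := by
  have h1 : dcomb Y v x - dcomb Y v y = ∑ i, v i • (fderiv ℝ (Y i) x - fderiv ℝ (Y i) y) := by
    simp [dcomb, smul_sub, Finset.sum_sub_distrib]
  rw [h1]
  exact norm_sum_smul_le v _ fun i => h.lipD i x y

theorem NiceFam.comb_taylor (h : NiceFam Y K M) (v : Fin m → ℝ) (x w : E) :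
    ‖comb Y v (x + w) - comb Y v x - dcomb Y v x w‖ ≤ m * ‖v‖ * K * ‖w‖ * ‖w‖ := by
  have key := (convex_segment x (x + w)).norm_image_sub_le_of_norm_hasFDerivWithin_le'
    (f := comb Y v) (f' := dcomb Y v) (φ := dcomb Y v x) (C := m * ‖v‖ * K * ‖w‖)
    (fun z _ => (h.hasFDerivAt_comb v z).hasFDerivWithinAt)
    (by
      intro z hz
      refine (h.dcomb_lip v z x).trans ?_
      have hzw : ‖z - x‖ ≤ ‖w‖ := by
        have := norm_sub_le_of_mem_segment hz
        simpa using this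
      have : K * ‖z - x‖ ≤ K * ‖w‖ := mul_le_mul_of_nonneg_left hzw h.K_nonneg
      calc (m : ℝ) * ‖v‖ * (K * ‖z - x‖) ≤ m * ‖v‖ * (K * ‖w‖) :=
            mul_le_mul_of_nonneg_left this (by positivity)
        _ = m * ‖v‖ * K * ‖w‖ := by ring)
    (left_mem_segment ℝ x (x + w)) (right_mem_segment ℝ x (x + w))
  simpa using key

/-- Commutation of two combinations at a point where the fields commute. -/
theorem dcomb_comm (v h : Fin m → ℝ) (z : E)
    (hz : ∀ i j, fderiv ℝ (Y i) z (Y j z) = fderiv ℝ (Y j) z (Y i z)) :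
    dcomb Y h z (comb Y v z) = dcomb Y v z (comb Y h z) := by
  simp only [dcomb, comb, sum_apply, map_sum, smul_apply, map_smul, Finset.smul_sum]
  rw [Finset.sum_comm]
  refine Finset.sum_congr rfl fun i _ => Finset.sum_congr rfl fun j _ => ?_
  rw [hz i j, smul_comm]

end

section

variable {E : Type} [NormedAddCommGroup E] [NormedSpace ℝ E] [CompleteSpace E] {m : ℕ}
variable {Y : Fin m → E → E} {K M : ℝ}

/-- solution property -/
def IsFlow (Y : Fin m → E → E) (v : Fin m → ℝ) (x : E) (u : ℝ → E) : Prop :=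
  u 0 = x ∧ ∀ t ∈ Icc (-1 : ℝ) 2, HasDerivWithinAt u (comb Y v (u t)) (Icc (-1 : ℝ) 2) t

theorem NiceFam.exists_flow (h : NiceFam Y K M) (v : Fin m → ℝ) (x : E) :
    ∃ u, IsFlow Y v x u := by
  have hL : 0 ≤ (m : ℝ) * ‖v‖ * M := mul_nonneg (by positivity) h.M_nonneg
  have hKK : 0 ≤ (m : ℝ) * ‖v‖ * K := mul_nonneg (by positivity) h.K_nonneg
  let L : ℝ≥0 := ⟨(m : ℝ) * ‖v‖ * M, hL⟩
  let KK : ℝ≥0 := ⟨(m : ℝ) * ‖v‖ * K, hKK⟩
  have hP : IsPicardLindelof (fun _ => comb Y v) (tmin := -1) (tmax := 2)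
      (⟨0, by norm_num, by norm_num⟩ : Icc (-1 : ℝ) 2) x (2 * L) 0 L KK := by
    refine IsPicardLindelof.of_time_independent ?_ ?_ ?_
    · intro y _
      exact h.norm_comb_le v y
    · refine LipschitzWith.lipschitzOnWith ?_
      refine LipschitzWith.of_dist_le_mul fun y z => ?_
      rw [dist_eq_norm, dist_eq_norm]
      exact h.comb_lip v y z
    · simp
      rw [mul_comm]
  obtain ⟨α, hα0, hα⟩ := hP.exists_eq_forall_mem_Icc_hasDerivWithinAt₀
  exact ⟨α, hα0, hα⟩

/-- the chosen integral curve -/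
noncomputable def flow (Y : Fin m → E → E) (v : Fin m → ℝ) (x : E) : ℝ → E :=
  Classical.epsilon (IsFlow Y v x)

/-- the time one map -/
noncomputable def phi (Y : Fin m → E → E) (v : Fin m → ℝ) (x : E) : E := flow Y v x 1

theorem NiceFam.flow_spec (h : NiceFam Y K M) (v : Fin m → ℝ) (x : E) :
    IsFlow Y v x (flow Y v x) := Classical.epsilon_spec (h.exists_flow v x)

theorem NiceFam.flow_zero (h : NiceFam Y K M) (v : Fin m → ℝ) (x : E) :
    flow Y v x 0 = x := (h.flow_spec v x).1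

theorem NiceFam.norm_flow_sub_le (h : NiceFam Y K M) (v : Fin m → ℝ) (x : E) {t : ℝ}
    (ht : t ∈ Icc (-1 : ℝ) 2) : ‖flow Y v x t - x‖ ≤ m * ‖v‖ * M * |t| := by
  have key := (convex_Icc (-1 : ℝ) 2).norm_image_sub_le_of_norm_hasDerivWithin_le
    (f := flow Y v x) (f' := fun t => comb Y v (flow Y v x t)) (C := m * ‖v‖ * M)
    (fun s hs => (h.flow_spec v x).2 s hs)
    (fun s _ => h.norm_comb_le v _)
    (show (0 : ℝ) ∈ Icc (-1 : ℝ) 2 by constructor <;> norm_num) ht
  rw [h.flow_zero v x] at key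
  simpa using key

theorem NiceFam.hasDerivWithinAt_flow (h : NiceFam Y K M) (v : Fin m → ℝ) (x : E) {t : ℝ}
    (ht : t ∈ Icc (0 : ℝ) 1) :
    HasDerivAt (flow Y v x) (comb Y v (flow Y v x t)) t := by
  refine ((h.flow_spec v x).2 t ⟨by linarith [ht.1], by linarith [ht.2]⟩).hasDerivAt ?_
  exact Icc_mem_nhds (by linarith [ht.1]) (by linarith [ht.2])

theorem gronwallBound_le_of_one_le {δ K ε t : ℝ} (hδ : 0 ≤ δ) (hε : 0 ≤ ε) (hK : 1 ≤ K)
    (ht : t ∈ Icc (0 : ℝ) 1) : gronwallBound δ K ε t ≤ (δ + ε) * Real.exp K := by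
  have hK0 : K ≠ 0 := by linarith
  rw [gronwallBound_of_K_ne_0 hK0]
  have h1 : Real.exp (K * t) ≤ Real.exp K := by
    apply Real.exp_le_exp.mpr
    nlinarith [ht.1, ht.2]
  have h2 : ε / K ≤ ε := div_le_self hε hK
  have h3 : 0 ≤ ε / K := by positivity
  have h4 : 1 ≤ Real.exp (K * t) := by
    apply Real.one_le_exp
    have := ht.1
    positivity
  have h5 : ε / K * (Real.exp (K * t) - 1) ≤ ε * Real.exp K := by
    calc ε / K * (Real.exp (K * t) - 1) ≤ ε * (Real.exp (K * t) - 1) :=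
          mul_le_mul_of_nonneg_right h2 (by linarith)
      _ ≤ ε * Real.exp K := mul_le_mul_of_nonneg_left (by linarith) hε
  have h6 : δ * Real.exp (K * t) ≤ δ * Real.exp K := mul_le_mul_of_nonneg_left h1 hδ
  show δ * Real.exp (K * t) + ε / K * (Real.exp (K * t) - 1) ≤ _
  linarith

omit [CompleteSpace E] in
theorem NiceFam.comb_lipschitzWith (h : NiceFam Y K M) {v : Fin m → ℝ} (hv : ‖v‖ ≤ 1) :
    LipschitzWith (⟨m * K + 1, by have := h.K_nonneg; positivity⟩ : ℝ≥0) (comb Y v) := by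
  refine LipschitzWith.of_dist_le_mul fun y z => ?_
  rw [dist_eq_norm, dist_eq_norm]
  refine (h.comb_lip v y z).trans ?_
  show _ ≤ (m * K + 1) * ‖y - z‖
  apply mul_le_mul_of_nonneg_right _ (norm_nonneg _)
  have : (m : ℝ) * ‖v‖ * K ≤ m * 1 * K := by
    apply mul_le_mul_of_nonneg_right _ h.K_nonneg
    exact mul_le_mul_of_nonneg_left hv (by positivity)
  linarith

theorem NiceFam.approx (h : NiceFam Y K M) {v : Fin m → ℝ} (hv : ‖v‖ ≤ 1) {f g g' : ℝ → E}
    {δ ε : ℝ} (hδ : 0 ≤ δ) (hε : 0 ≤ ε)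
    (hf : ∀ t ∈ Icc (0 : ℝ) 1, HasDerivAt f (comb Y v (f t)) t)
    (hg : ∀ t ∈ Icc (0 : ℝ) 1, HasDerivAt g (g' t) t)
    (hgε : ∀ t ∈ Icc (0 : ℝ) 1, ‖g' t - comb Y v (g t)‖ ≤ ε)
    (h0 : ‖f 0 - g 0‖ ≤ δ) {t : ℝ} (ht : t ∈ Icc (0 : ℝ) 1) :
    ‖f t - g t‖ ≤ (δ + ε) * Real.exp (m * K + 1) := by
  have key := dist_le_of_approx_trajectories_ODE (v := fun _ => comb Y v)
    (K := ⟨m * K + 1, by have := h.K_nonneg; positivity⟩) (f := f) (g := g)
    (f' := fun t => comb Y v (f t)) (g' := g') (a := 0) (b := 1) (εf := 0) (εg := ε) (δ := δ)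
    (fun _ => h.comb_lipschitzWith hv)
    (fun s hs => (hf s hs).continuousAt.continuousWithinAt)
    (fun s hs => (hf s ⟨hs.1, hs.2.le⟩).hasDerivWithinAt)
    (fun s hs => by simp)
    (fun s hs => (hg s hs).continuousAt.continuousWithinAt)
    (fun s hs => (hg s ⟨hs.1, hs.2.le⟩).hasDerivWithinAt)
    (fun s hs => by
      rw [dist_eq_norm]
      exact hgε s ⟨hs.1, hs.2.le⟩)
    (by rw [dist_eq_norm]; exact h0) t ht
  rw [dist_eq_norm] at key
  refine key.trans ?_
  rw [zero_add, sub_zero]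
  refine gronwallBound_le_of_one_le hδ hε ?_ ht
  show (1 : ℝ) ≤ m * K + 1
  have := h.K_nonneg
  have : 0 ≤ (m : ℝ) * K := by positivity
  linarith

/-- Lipschitz dependence of the time one map. -/
theorem NiceFam.norm_phi_sub_le (h : NiceFam Y K M) {v w : Fin m → ℝ} (hv : ‖v‖ ≤ 1) (x y : E) :
    ‖phi Y v x - phi Y w y‖ ≤ (‖x - y‖ + m * ‖w - v‖ * M) * Real.exp (m * K + 1) := by
  refine h.approx hv (norm_nonneg _) (mul_nonneg (by positivity) h.M_nonneg)
    (fun t ht => h.hasDerivWithinAt_flow v x ht)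
    (fun t ht => h.hasDerivWithinAt_flow w y ht)
    ?_ ?_ (right_mem_Icc.mpr zero_le_one)
  · intro t _
    rw [← comb_sub]
    exact h.norm_comb_le _ _
  · rw [h.flow_zero, h.flow_zero]

theorem NiceFam.continuousAt_phi (h : NiceFam Y K M) {v : Fin m → ℝ} (hv : ‖v‖ ≤ 1) (x : E) :
    ContinuousAt (fun p : (Fin m → ℝ) × E => phi Y p.1 p.2) (v, x) := by
  rw [Metric.continuousAt_iff']
  intro ε hε
  have hc : Continuous (fun p : (Fin m → ℝ) × E =>
      (‖x - p.2‖ + m * ‖p.1 - v‖ * M) * Real.exp (m * K + 1)) := by fun_prop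
  have h0 : (fun p : (Fin m → ℝ) × E =>
      (‖x - p.2‖ + m * ‖p.1 - v‖ * M) * Real.exp (m * K + 1)) (v, x) < ε := by simpa using hε
  filter_upwards [hc.continuousAt.eventually_lt continuousAt_const h0] with p hp
  rw [dist_comm, dist_eq_norm]
  exact (h.norm_phi_sub_le hv x p.2).trans_lt hp

/-- Scaling. -/
theorem NiceFam.phi_smul (h : NiceFam Y K M) {v : Fin m → ℝ} (hv : ‖v‖ ≤ 1) (x : E) {s : ℝ}
    (hs : s ∈ Icc (0 : ℝ) 1) : phi Y (s • v) x = flow Y v x s := by
  have hsv : ‖s • v‖ ≤ 1 := by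
    rw [norm_smul, Real.norm_of_nonneg hs.1]
    exact mul_le_one₀ hs.2 (norm_nonneg _) hv
  have key := h.approx (f := flow Y (s • v) x) (g := fun t => flow Y v x (s * t))
    (g' := fun t => s • comb Y v (flow Y v x (s * t))) hsv le_rfl le_rfl
    (fun t ht => h.hasDerivWithinAt_flow (s • v) x ht)
    (fun t ht => by
      have hst : s * t ∈ Icc (0 : ℝ) 1 :=
        ⟨mul_nonneg hs.1 ht.1, mul_le_one₀ hs.2 ht.1 ht.2⟩
      have h1 := h.hasDerivWithinAt_flow v x hst
      have h2 : HasDerivAt (fun t : ℝ => s * t) s t := by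
        simpa using (hasDerivAt_id t).const_mul s
      exact h1.scomp t h2)
    (fun t ht => by
      rw [comb_smul]
      simp)
    (by simp [h.flow_zero]) (right_mem_Icc.mpr zero_le_one)
  simp only [add_zero, zero_mul, mul_one] at key
  have := norm_le_zero_iff.mp key
  exact sub_eq_zero.mp this

/-- Differentiability of the time one map in the direction variable, at points where the
fields commute along the trajectory. -/
theorem NiceFam.hasFDerivAt_phi (h : NiceFam Y K M) {v : Fin m → ℝ} (hv : ‖v‖ < 1) (x : E)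
    (hcomm : ∀ t ∈ Icc (0 : ℝ) 1, ∀ i j,
      fderiv ℝ (Y i) (flow Y v x t) (Y j (flow Y v x t))
        = fderiv ℝ (Y j) (flow Y v x t) (Y i (flow Y v x t))) :
    HasFDerivAt (fun w => phi Y w x)
      (∑ i, (ContinuousLinearMap.proj (R := ℝ) (φ := fun _ : Fin m => ℝ) i).smulRight
        (Y i (phi Y v x))) v := by
  set C : ℝ := m * K * (m * M) * (m * M) + m * K * (m * M) with hC
  have hKn := h.K_nonneg
  have hMn := h.M_nonneg
  have hCn : 0 ≤ C := by positivity
  have hlin : ∀ w : Fin m → ℝ,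
      (∑ i, (ContinuousLinearMap.proj (R := ℝ) (φ := fun _ : Fin m => ℝ) i).smulRight
        (Y i (phi Y v x))) w = comb Y w (phi Y v x) := by
    intro w
    simp [comb]
  have hest : ∀ w : Fin m → ℝ, ‖w‖ ≤ 1 →
      ‖phi Y w x - phi Y v x - comb Y (w - v) (phi Y v x)‖
        ≤ C * Real.exp (m * K + 1) * ‖w - v‖ * ‖w - v‖ := by
    intro w hw
    set k := w - v with hk
    set u := flow Y v x with hu
    have hwv : w = v + k := by rw [hk]; abel
    have key := h.approx (f := flow Y w x) (g := fun t => u t + t • comb Y k (u t))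
      (g' := fun t => comb Y v (u t) + (t • dcomb Y k (u t) (comb Y v (u t)) + comb Y k (u t)))
      (δ := 0) (ε := C * ‖k‖ * ‖k‖) hw le_rfl (by positivity)
      (fun t ht => h.hasDerivWithinAt_flow w x ht)
      (fun t ht => by
        have h1 := h.hasDerivWithinAt_flow v x ht
        have h2 : HasDerivAt (fun t => comb Y k (u t)) (dcomb Y k (u t) (comb Y v (u t))) t :=
          (h.hasFDerivAt_comb k (u t)).comp_hasDerivAt t h1
        have h3 : HasDerivAt (fun t : ℝ => t • comb Y k (u t))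
            (t • dcomb Y k (u t) (comb Y v (u t)) + (1 : ℝ) • comb Y k (u t)) t :=
          (hasDerivAt_id t).smul h2
        rw [one_smul] at h3
        exact h1.add h3)
      (fun t ht => by
        set z := u t with hz
        have hck : ‖t • comb Y k z‖ ≤ m * ‖k‖ * M := by
          rw [norm_smul, Real.norm_of_nonneg ht.1]
          calc t * ‖comb Y k z‖ ≤ 1 * (m * ‖k‖ * M) :=
                mul_le_mul ht.2 (h.norm_comb_le k z) (norm_nonneg _) zero_le_one
            _ = m * ‖k‖ * M := one_mul _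
        have hcomm' : dcomb Y k z (comb Y v z) = dcomb Y v z (comb Y k z) :=
          dcomb_comm v k z (hcomm t ht)
        have e1 := h.comb_taylor v z (t • comb Y k z)
        have e2 := h.comb_lip k (z + t • comb Y k z) z
        have hrew : comb Y v z + (t • dcomb Y k z (comb Y v z) + comb Y k z)
            - comb Y w (z + t • comb Y k z)
            = -(comb Y v (z + t • comb Y k z) - comb Y v z - dcomb Y v z (t • comb Y k z))
              - (comb Y k (z + t • comb Y k z) - comb Y k z) := by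
          rw [hwv, comb_add, hcomm', map_smul]
          abel
        show ‖comb Y v z + (t • dcomb Y k z (comb Y v z) + comb Y k z)
            - comb Y w (z + t • comb Y k z)‖ ≤ _
        rw [hrew]
        refine (norm_sub_le _ _).trans ?_
        rw [norm_neg]
        have e3 : (m : ℝ) * ‖v‖ * K * ‖t • comb Y k z‖ * ‖t • comb Y k z‖
            ≤ m * 1 * K * (m * ‖k‖ * M) * (m * ‖k‖ * M) := by
          gcongr
        have e4 : (m : ℝ) * ‖k‖ * K * ‖z + t • comb Y k z - z‖
            ≤ m * ‖k‖ * K * (m * ‖k‖ * M) := by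
          rw [add_sub_cancel_left]
          gcongr
        have e5 : (m : ℝ) * 1 * K * (m * ‖k‖ * M) * (m * ‖k‖ * M) + m * ‖k‖ * K * (m * ‖k‖ * M)
            = C * ‖k‖ * ‖k‖ := by
          rw [hC]; ring
        linarith)
      (by simp [hu, h.flow_zero]) (right_mem_Icc.mpr zero_le_one)
    have e6 : flow Y w x 1 - (u 1 + (1 : ℝ) • comb Y k (u 1))
        = phi Y w x - phi Y v x - comb Y k (phi Y v x) := by
      simp only [phi, hu, one_smul]
      abel
    rw [e6, zero_add] at key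
    calc _ ≤ C * ‖k‖ * ‖k‖ * Real.exp (m * K + 1) := key
      _ = _ := by ring
  rw [hasFDerivAt_iff_isLittleO_nhds_zero]
  rw [Asymptotics.isLittleO_iff]
  intro c hc
  have hB : 0 ≤ C * Real.exp (m * K + 1) := by positivity
  have hnear : ∀ᶠ k : Fin m → ℝ in 𝓝 0, ‖v + k‖ ≤ 1 ∧ C * Real.exp (m * K + 1) * ‖k‖ ≤ c := by
    refine Filter.Eventually.and ?_ ?_
    · have hc1 : Continuous (fun k : Fin m → ℝ => ‖v + k‖) := by fun_prop
      have : (fun k : Fin m → ℝ => ‖v + k‖) 0 < 1 := by simpa using hv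
      filter_upwards [hc1.continuousAt.eventually_lt continuousAt_const this] with k hk
      exact hk.le
    · have hc1 : Continuous (fun k : Fin m → ℝ => C * Real.exp (m * K + 1) * ‖k‖) := by fun_prop
      have : (fun k : Fin m → ℝ => C * Real.exp (m * K + 1) * ‖k‖) 0 < c := by simpa using hc
      filter_upwards [hc1.continuousAt.eventually_lt continuousAt_const this] with k hk
      exact hk.le
  filter_upwards [hnear] with k hk
  rw [hlin]
  have := hest (v + k) hk.1
  rw [add_sub_cancel_left] at this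
  refine this.trans ?_
  exact mul_le_mul_of_nonneg_right hk.2 (norm_nonneg _)

end

end Pool.Agent.H.MP_5d95cf_gt
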