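import Pool.Agent.H.MP_5d95cf_gt.Alg
import Pool.Agent.H.MP_5d95cf_gt.Flow

namespace Pool.Agent.H.MP_5d95cf_gt

open Set Metric
open scoped Manifold ContDiff Topology

variable {n : ℕ} {M : Type*} [TopologicalSpace M] [ChartedSpace (Eu n) M]

/-- bounded on `[0, T]` -/
def Bd (T : ℝ) (w : ℝ → ℝ) : Prop := ∃ B, ∀ t ∈ Icc 0 T, |w t| ≤ B

/-- bounded by a multiple of `N` on `[0, T]` -/
def BB (N : ℝ → ℝ) (T : ℝ) (q : ℝ → ℝ) : Prop := ∃ K, 0 ≤ K ∧ ∀ t ∈ Icc 0 T, |q t| ≤ K * N t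

theorem Bd.of_cont {T : ℝ} {w : ℝ → ℝ} (hw : ContinuousOn w (Icc 0 T)) : Bd T w := by
  obtain ⟨B, hB⟩ := isCompact_Icc.exists_bound_of_continuousOn hw
  exact ⟨B, hB⟩

theorem Bd.mul {T : ℝ} {w w' : ℝ → ℝ} (h : Bd T w) (h' : Bd T w') :
    Bd T (fun t => w t * w' t) := by
  obtain ⟨B, hB⟩ := h
  obtain ⟨B', hB'⟩ := h'
  refine ⟨B * B', fun t ht => ?_⟩
  rw [abs_mul]
  exact mul_le_mul (hB t ht) (hB' t ht) (abs_nonneg _) ((abs_nonneg _).trans (hB t ht))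

section

variable {N : ℝ → ℝ} {T : ℝ}

theorem BB.add {q q' : ℝ → ℝ} (h : BB N T q) (h' : BB N T q') : BB N T (fun t => q t + q' t) := by
  obtain ⟨K, hK, hq⟩ := h
  obtain ⟨K', hK', hq'⟩ := h'
  refine ⟨K + K', by positivity, fun t ht => ?_⟩
  have := abs_add_le (q t) (q' t)
  have h1 := hq t ht
  have h2 := hq' t ht
  rw [add_mul]
  linarith

theorem BB.neg {q : ℝ → ℝ} (h : BB N T q) : BB N T (fun t => -q t) := by
  obtain ⟨K, hK, hq⟩ := h
  refine ⟨K, hK, fun t ht => ?_⟩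
  rw [abs_neg]
  exact hq t ht

theorem BB.sub {q q' : ℝ → ℝ} (h : BB N T q) (h' : BB N T q') : BB N T (fun t => q t - q' t) := by
  simp only [sub_eq_add_neg]
  exact BB.add h h'.neg

theorem BB.zero : BB N T (fun _ => 0) := ⟨0, le_rfl, fun t _ => by simp⟩

theorem BB.sum {ι : Type*} (s : Finset ι) {q : ι → ℝ → ℝ} (h : ∀ i ∈ s, BB N T (q i)) :
    BB N T (fun t => ∑ i ∈ s, q i t) := by
  classical
  induction s using Finset.induction_on with
  | empty => simpa using BB.zero (N := N) (T := T)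
  | insert a s ha ih =>
    simp only [Finset.sum_insert ha]
    exact BB.add (h a (Finset.mem_insert_self a s))
      (ih fun i hi => h i (Finset.mem_insert_of_mem hi))

theorem BB.mul {w q : ℝ → ℝ} (hw : Bd T w) (h : BB N T q) : BB N T (fun t => w t * q t) := by
  obtain ⟨B, hB⟩ := hw
  obtain ⟨K, hK, hq⟩ := h
  refine ⟨|B| * K, by positivity, fun t ht => ?_⟩
  rw [abs_mul, mul_assoc]
  exact mul_le_mul ((hB t ht).trans (le_abs_self B)) (hq t ht) (abs_nonneg _) (abs_nonneg _)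

end

/-- A curve which follows a time dependent combination of Hamiltonian vector fields. -/
structure IsCtl (P : PoissonStructure n M) {ι : Type} [Fintype ι] (K : ι → Sm n M)
    (c : ι → ℝ → ℝ) (γ : ℝ → M) (T : ℝ) : Prop where
  cont : ContinuousOn γ (Icc 0 T)
  der : ∀ f : Sm n M, ∀ t ∈ Icc 0 T, HasDerivWithinAt (fun s => f (γ s))
    (∑ k, c k t * P.br f (K k) (γ t)) (Icc 0 T) t
  bdd : ∀ k, Bd T (c k)

theorem continuousOn_comp_curve {γ : ℝ → M} {T : ℝ} (hγ : ContinuousOn γ (Icc 0 T))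
    (f : Sm n M) : ContinuousOn (fun t => f (γ t)) (Icc 0 T) :=
  f.contMDiff.continuous.comp_continuousOn hγ

/-- The defect bivector vanishes along a curve once it vanishes at the initial point. -/
theorem T_zero_along [T2Space M] [IsManifold (𝓡 n) ∞ M] {P : PoissonStructure n M} {m : ℕ}
    (F : Frame P m) {y0 : M} (ch : LChart n y0) {ι : Type} [Fintype ι] {K : ι → Sm n M}
    {c : ι → ℝ → ℝ} {γ : ℝ → M} {T : ℝ} (hγ : IsCtl P K c γ T)
    (hV : ∀ t ∈ Icc 0 T, γ t ∈ ch.V) (hW : ∀ t ∈ Icc 0 T, γ t ∈ F.W)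
    (h0 : ∀ f h, F.T f h (γ 0) = 0) :
    ∀ t ∈ Icc 0 T, ∀ f h, F.T f h (γ t) = 0 := by
  -- the coordinate expression of the defect
  let θ : ℝ → Fin n → Fin n → ℝ := fun t a b => F.T (ch.x a) (ch.x b) (γ t)
  have hexp : ∀ f h : Sm n M, ∀ (Ff Fh : Eu n → ℝ), ContDiff ℝ ∞ Ff → ContDiff ℝ ∞ Fh →
      (∀ p ∈ ch.V, f p = Ff (ch.X p)) → (∀ p ∈ ch.V, h p = Fh (ch.X p)) → ∀ p ∈ ch.V,
      F.T f h p = ∑ a, ∑ b, (fderiv ℝ Ff (ch.X p) (basisV n a) *
        fderiv ℝ Fh (ch.X p) (basisV n b)) * F.T (ch.x a) (ch.x b) p := by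
    intro f h Ff Fh hFf hFh hf hh p hp
    rw [← F.TL_apply, ch.pd f Ff hFf hf hp (F.isPD_TL h p)]
    refine Finset.sum_congr rfl fun a _ => ?_
    rw [F.TL_apply, ← F.TR_apply, ch.pd h Fh hFh hh hp (F.isPD_TR (ch.x a) p), Finset.mul_sum]
    refine Finset.sum_congr rfl fun b _ => ?_
    rw [F.TR_apply]
    ring
  have hBB : ∀ f h : Sm n M, BB (fun t => ‖θ t‖) T (fun t => F.T f h (γ t)) := by
    intro f h
    obtain ⟨Ff, hFf, -, hf⟩ := ch.hat f
    obtain ⟨Fh, hFh, -, hh⟩ := ch.hat h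
    have hcX : ContinuousOn (fun t => ch.X (γ t)) (Icc 0 T) :=
      ch.X.contMDiff.continuous.comp_continuousOn hγ.cont
    have hcd : ∀ (G : Eu n → ℝ), ContDiff ℝ ∞ G → ∀ a,
        Bd T (fun t => fderiv ℝ G (ch.X (γ t)) (basisV n a)) := by
      intro G hG a
      apply Bd.of_cont
      have h1 : Continuous (fun z => fderiv ℝ G z (basisV n a)) :=
        (hG.continuous_fderiv (by simp)).clm_apply continuous_const
      exact h1.comp_continuousOn hcX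
    have h2 : BB (fun t => ‖θ t‖) T (fun t => ∑ a, ∑ b,
        (fderiv ℝ Ff (ch.X (γ t)) (basisV n a) * fderiv ℝ Fh (ch.X (γ t)) (basisV n b)) *
          F.T (ch.x a) (ch.x b) (γ t)) := by
      refine BB.sum _ fun a _ => BB.sum _ fun b _ => ?_
      refine BB.mul ((hcd Ff hFf a).mul (hcd Fh hFh b)) ⟨1, zero_le_one, fun t _ => ?_⟩
      rw [one_mul]
      have e1 : ‖θ t a b‖ ≤ ‖θ t a‖ := norm_le_pi_norm (θ t a) b
      have e2 : ‖θ t a‖ ≤ ‖θ t‖ := norm_le_pi_norm (θ t) a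
      exact e1.trans e2
    obtain ⟨K', hK', hb⟩ := h2
    refine ⟨K', hK', fun t ht => ?_⟩
    have := hb t ht
    beta_reduce at this ⊢
    rw [← hexp f h Ff Fh hFf hFh hf hh (γ t) (hV t ht)] at this
    exact this
  have hbd : ∀ f : Sm n M, Bd T (fun t => f (γ t)) := fun f =>
    Bd.of_cont (continuousOn_comp_curve hγ.cont f)
  -- derivative
  let θ' : ℝ → Fin n → Fin n → ℝ := fun t a b =>
    ∑ k, c k t * P.br (F.T (ch.x a) (ch.x b)) (K k) (γ t)
  have hder : ∀ t ∈ Icc 0 T, HasDerivWithinAt θ (θ' t) (Icc 0 T) t := by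
    intro t ht
    rw [hasDerivWithinAt_pi]
    intro a
    rw [hasDerivWithinAt_pi]
    intro b
    exact hγ.der (F.T (ch.x a) (ch.x b)) t ht
  have hbr : ∀ a b k, BB (fun t => ‖θ t‖) T
      (fun t => P.br (F.T (ch.x a) (ch.x b)) (K k) (γ t)) := by
    intro a b k
    have h3 : BB (fun t => ‖θ t‖) T (fun t => F.T (P.br (ch.x a) (K k)) (ch.x b) (γ t)
        + F.T (ch.x a) (P.br (ch.x b) (K k)) (γ t)
        - (∑ q, ∑ j, (F.b q j (γ t) * P.br (F.a j) (ch.x b) (γ t)) *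
            F.T (ch.x a) (P.br (F.g q) (K k)) (γ t))
        - ∑ i, ∑ l, (P.br (ch.x a) (F.g i) (γ t) * F.b i l (γ t)) *
            F.T (P.br (F.a l) (K k)) (ch.x b) (γ t)) := by
      refine BB.sub (BB.sub (BB.add (hBB _ _) (hBB _ _)) ?_) ?_
      · refine BB.sum _ fun q _ => BB.sum _ fun j _ => ?_
        exact BB.mul ((hbd (F.b q j)).mul (hbd (P.br (F.a j) (ch.x b)))) (hBB _ _)
      · refine BB.sum _ fun i _ => BB.sum _ fun l _ => ?_
        exact BB.mul ((hbd (P.br (ch.x a) (F.g i))).mul (hbd (F.b i l))) (hBB _ _)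
    obtain ⟨K', hK', hb⟩ := h3
    refine ⟨K', hK', fun t ht => ?_⟩
    have h4 := hb t ht
    beta_reduce at h4 ⊢
    rw [F.br_T (hW t ht)]
    have e1 : (∑ q, ∑ j, F.T (ch.x a) (P.br (F.g q) (K k)) (γ t) * F.b q j (γ t) *
        P.br (F.a j) (ch.x b) (γ t)) = ∑ q, ∑ j, (F.b q j (γ t) * P.br (F.a j) (ch.x b) (γ t)) *
            F.T (ch.x a) (P.br (F.g q) (K k)) (γ t) :=
      Finset.sum_congr rfl fun q _ => Finset.sum_congr rfl fun j _ => by ring
    rw [e1]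
    exact h4
  have hθ' : ∀ a b, BB (fun t => ‖θ t‖) T (fun t => θ' t a b) := by
    intro a b
    exact BB.sum _ fun k _ => BB.mul (hγ.bdd k) (hbr a b k)
  choose Kab hKab hKb using hθ'
  have hbound : ∀ t ∈ Icc 0 T, ‖θ' t‖ ≤ (∑ a, ∑ b, Kab a b) * ‖θ t‖ := by
    intro t ht
    have hnn : 0 ≤ (∑ a, ∑ b, Kab a b) * ‖θ t‖ :=
      mul_nonneg (Finset.sum_nonneg fun a _ => Finset.sum_nonneg fun b _ => hKab a b)
        (norm_nonneg _)
    rw [pi_norm_le_iff_of_nonneg hnn]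
    intro a
    rw [pi_norm_le_iff_of_nonneg hnn]
    intro b
    have e1 : ‖θ' t a b‖ ≤ Kab a b * ‖θ t‖ := hKb a b t ht
    have e2 : Kab a b ≤ ∑ b, Kab a b :=
      Finset.single_le_sum (f := fun b => Kab a b) (fun b _ => hKab a b) (Finset.mem_univ b)
    have e3 : ∑ b, Kab a b ≤ ∑ a, ∑ b, Kab a b :=
      Finset.single_le_sum (f := fun a => ∑ b, Kab a b)
        (fun a _ => Finset.sum_nonneg fun b _ => hKab a b) (Finset.mem_univ a)
    exact e1.trans (mul_le_mul_of_nonneg_right (e2.trans e3) (norm_nonneg _))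
  have hθ0 : θ 0 = 0 := by
    funext a b
    exact h0 _ _
  have hzero := eq_zero_of_abs_deriv_le_mul_abs_self_of_eq_zero_right (f := θ) (f' := θ')
    (a := 0) (b := T) (K := ∑ a, ∑ b, Kab a b)
    (fun t ht => (hder t ht).continuousWithinAt)
    (fun t ht => (hder t ⟨ht.1, ht.2.le⟩).mono_of_mem_nhdsWithin
      (Icc_mem_nhdsGE_of_mem ht))
    hθ0 (fun t ht => hbound t ⟨ht.1, ht.2.le⟩)
  intro t ht f h
  obtain ⟨Ff, hFf, -, hf⟩ := ch.hat f
  obtain ⟨Fh, hFh, -, hh⟩ := ch.hat h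
  rw [hexp f h Ff Fh hFf hFh hf hh (γ t) (hV t ht)]
  refine Finset.sum_eq_zero fun a _ => Finset.sum_eq_zero fun b _ => ?_
  have : F.T (ch.x a) (ch.x b) (γ t) = 0 := congrFun (congrFun (hzero t ht) a) b
  rw [this, mul_zero]

end Pool.Agent.H.MP_5d95cf_gt
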