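import Mathlib

namespace Pool.Agent.H.MP_5d95cf_gt

open Set Filter
open scoped Manifold ContDiff Topology

/-- Euclidean `n`-space. -/
abbrev Eu (n : ℕ) : Type := EuclideanSpace ℝ (Fin n)

/-- The algebra of smooth real functions on an `n`-dimensional manifold `M`. -/
abbrev Sm (n : ℕ) (M : Type*) [TopologicalSpace M] [ChartedSpace (Eu n) M] : Type _ :=
  ContMDiffMap (𝓡 n) 𝓘(ℝ, ℝ) M ℝ ∞

/-- A Poisson structure on `M`: a Poisson bracket on the algebra of smooth functions. -/
structure PoissonStructure (n : ℕ) (M : Type*) [TopologicalSpace M] [ChartedSpace (Eu n) M] where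
  /-- the bracket -/
  br : Sm n M →ₗ[ℝ] Sm n M →ₗ[ℝ] Sm n M
  skew : ∀ f g, br f g = -br g f
  leibniz : ∀ f g h, br (f * g) h = f * br g h + g * br f h
  jacobi : ∀ f g h, br f (br g h) + br g (br h f) + br h (br f g) = 0

variable {n : ℕ} {M : Type*} [TopologicalSpace M] [ChartedSpace (Eu n) M]

/-- On the interval `[0, T]`, the curve `γ` is an integral curve of the Hamiltonian vector field
`{·, H}` of the function `H`. -/
def IsTraj (P : PoissonStructure n M) (H : Sm n M) (γ : ℝ → M) (T : ℝ) : Prop :=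
  ContinuousOn γ (Icc 0 T) ∧ ∀ f : Sm n M, ∀ t ∈ Icc 0 T,
    HasDerivWithinAt (fun s => f (γ s)) (P.br f H (γ t)) (Icc 0 T) t

/-- One can go from `y` to `z` inside `U` along one integral curve of a Hamiltonian vector
field. -/
def Step (P : PoissonStructure n M) (U : Set M) (y z : M) : Prop :=
  ∃ (H : Sm n M) (γ : ℝ → M) (T : ℝ), 0 ≤ T ∧ γ 0 = y ∧ γ T = z ∧ (∀ t ∈ Icc 0 T, γ t ∈ U) ∧
    IsTraj P H γ T

/-- One can go from `y` to `z` inside `U` along finitely many integral curves of Hamiltonian
vector fields. -/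
def Reach (P : PoissonStructure n M) (U : Set M) : M → M → Prop := Relation.ReflTransGen (Step P U)

theorem Reach.mono {P : PoissonStructure n M} {U V : Set M} (hUV : U ⊆ V) {y z : M}
    (h : Reach P U y z) : Reach P V y z := by
  induction h with
  | refl => exact Relation.ReflTransGen.refl
  | tail _ hs ih =>
    obtain ⟨H, γ, T, h0, h3, h4, h5, h6⟩ := hs
    exact ih.tail ⟨H, γ, T, h0, h3, h4, fun t ht => hUV (h5 t ht), h6⟩

/-- Composition of a smooth function with a diffeomorphism. -/
noncomputable def pull (ψ : Diffeomorph (𝓡 n) (𝓡 n) M M ∞) (f : Sm n M) : Sm n M :=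
  ⟨fun p => f (ψ p), f.contMDiff.comp ψ.contMDiff⟩

/-- Poisson diffeomorphisms: `{f ∘ ψ, g ∘ ψ} = {f, g} ∘ ψ` for all smooth `f`, `g`. -/
def IsPoissonDiffeo (P : PoissonStructure n M) (ψ : Diffeomorph (𝓡 n) (𝓡 n) M M ∞) : Prop :=
  ∀ f g : Sm n M, P.br (pull ψ f) (pull ψ g) = pull ψ (P.br f g)

/-- Poisson homeomorphisms: homeomorphisms which are limits of a sequence of Poisson
diffeomorphisms, uniformly on compact sets (that is, in the compact-open topology of
`C(M, M)`). -/
def IsPoissonHomeo (P : PoissonStructure n M) (φ : M ≃ₜ M) : Prop :=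
  ∃ ψ : ℕ → Diffeomorph (𝓡 n) (𝓡 n) M M ∞, (∀ k, IsPoissonDiffeo P (ψ k)) ∧
    Tendsto (fun k => ((ψ k).toHomeomorph : C(M, M))) atTop (𝓝 (φ : C(M, M)))

/-- Symplectic leaves: the sets of all points which can be reached from a given point along
finitely many integral curves of Hamiltonian vector fields. -/
def IsLeaf (P : PoissonStructure n M) (L : Set M) : Prop := ∃ x, L = {y | Reach P univ x y}

/-- The leaf topology of `M`: a set `s` is open if with every point `z` it contains, for some open
`U` around `z`, all points which can be reached from `z` inside `U` along finitely many integral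
curves of Hamiltonian vector fields. -/
@[reducible] def leafTop (P : PoissonStructure n M) : TopologicalSpace M where
  IsOpen s := ∀ z ∈ s, ∃ U : Set M, IsOpen U ∧ z ∈ U ∧ ∀ y, Reach P U z y → y ∈ s
  isOpen_univ := fun _ _ => ⟨univ, isOpen_univ, mem_univ _, fun _ _ => mem_univ _⟩
  isOpen_inter := by
    intro s t hs ht z hz
    obtain ⟨U, hU, hzU, h1⟩ := hs z hz.1
    obtain ⟨V, hV, hzV, h2⟩ := ht z hz.2
    exact ⟨U ∩ V, hU.inter hV, ⟨hzU, hzV⟩, fun y hy =>
      ⟨h1 y (hy.mono inter_subset_left), h2 y (hy.mono inter_subset_right)⟩⟩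
  isOpen_sUnion := by
    intro S hS z hz
    obtain ⟨s, hs, hzs⟩ := hz
    obtain ⟨U, hU, hzU, h1⟩ := hS s hs z hzs
    exact ⟨U, hU, hzU, fun y hy => ⟨s, hs, h1 y hy⟩⟩

/-- The leaf topology of a subset of `M` (used for leaves). -/
@[reducible] def leafTopOn (P : PoissonStructure n M) (L : Set M) : TopologicalSpace L :=
  (leafTop P).induced Subtype.val

/-- On the ball of radius `ε`, the map `c` is smooth, and `A` is a smooth left inverse of it (so
`c` is an injective immersion there). -/
def IsSmoothParam {m : ℕ} (ε : ℝ) (c : (Fin m → ℝ) → M) (A : M → Fin m → ℝ) : Prop :=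
  ContMDiffOn 𝓘(ℝ, Fin m → ℝ) (𝓡 n) ∞ c (Metric.ball 0 ε) ∧
    ContMDiff (𝓡 n) 𝓘(ℝ, Fin m → ℝ) ∞ A ∧ ∀ v ∈ Metric.ball 0 ε, A (c v) = v

/-- The tangent vector `dc(v)(w)` at `c v`, as a functional on smooth functions. -/
noncomputable def velocity {m : ℕ} (c : (Fin m → ℝ) → M) (v w : Fin m → ℝ) (f : Sm n M) : ℝ :=
  fderiv ℝ (fun u => f (c u)) v w

/-- The value at `p` of the Hamiltonian vector field of `H`, as a functional on smooth
functions. -/
noncomputable def hamAt (P : PoissonStructure n M) (H : Sm n M) (p : M) (f : Sm n M) : ℝ :=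
  P.br f H p

/-- At the points of the ball of radius `ε`, the tangent vectors of `c` are exactly the values of
the Hamiltonian vector fields. -/
def TangentToHam (P : PoissonStructure n M) {m : ℕ} (ε : ℝ) (c : (Fin m → ℝ) → M) : Prop :=
  ∀ v ∈ Metric.ball (0 : Fin m → ℝ) ε, range (velocity c v) = range (fun H => hamAt P H (c v))

/-- On the ball of radius `ε`, the map `c` is an open embedding into `L` with the leaf topology. -/
def IsLeafOpenEmb (P : PoissonStructure n M) (L : Set M) {m : ℕ} (ε : ℝ)
    (c : (Fin m → ℝ) → M) : Prop :=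
  ∃ hc : ∀ v ∈ Metric.ball (0 : Fin m → ℝ) ε, c v ∈ L,
    @Topology.IsOpenEmbedding (Metric.ball (0 : Fin m → ℝ) ε) L _ (leafTopOn P L)
      (fun v => ⟨c v, hc v v.2⟩)

/-- `L`, with the leaf topology, is an immersed submanifold of `M` tangent to the characteristic
distribution: around each point `x` of `L` there is a smooth parametrization `c` of a neighbourhood
of `x` in `L` by a ball of some `ℝ^m`, which is an open embedding for the leaf topology of `L`,
has a smooth left inverse `A` (so it is an immersion), and whose tangent vectors at `c v` are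
exactly the values at `c v` of the Hamiltonian vector fields. -/
def IsIntegralLeaf (P : PoissonStructure n M) (L : Set M) : Prop :=
  ∀ x ∈ L, ∃ (m : ℕ) (ε : ℝ) (c : (Fin m → ℝ) → M) (A : M → Fin m → ℝ), 0 < ε ∧ c 0 = x ∧
    IsSmoothParam (n := n) ε c A ∧ TangentToHam P ε c ∧ IsLeafOpenEmb P L ε c

end Pool.Agent.H.MP_5d95cf_gt
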