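import Pool.Agent.H.MP_5d95cf_gt.Curves

namespace Pool.Agent.H.MP_5d95cf_gt

open Set Metric
open scoped Manifold ContDiff Topology NNReal

theorem exists_niceFam {E : Type} [NormedAddCommGroup E] [NormedSpace ℝ E] {m : ℕ}
    (Y : Fin m → E → E) (hY : ∀ j, ContDiff ℝ ∞ (Y j)) (hc : ∀ j, HasCompactSupport (Y j)) :
    ∃ K M, NiceFam Y K M := by
  have h1 : ∀ j, ∃ C : ℝ≥0, LipschitzWith C (Y j) := fun j =>
    (hY j).lipschitzWith_of_hasCompactSupport (hc j) (by simp)
  have h2 : ∀ j, ∃ C : ℝ≥0, LipschitzWith C (fderiv ℝ (Y j)) := fun j =>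
    ((hY j).fderiv_right (m := ∞) (by exact_mod_cast le_top)).lipschitzWith_of_hasCompactSupport
      ((hc j).fderiv ℝ) (by simp)
  have h3 : ∀ j, ∃ C : ℝ, ∀ x, ‖Y j x‖ ≤ C := fun j =>
    (hc j).exists_bound_of_continuous (hY j).continuous
  choose C1 hC1 using h1
  choose C2 hC2 using h2
  choose C3 hC3 using h3
  have hK : ∀ j, (C1 j : ℝ) ≤ ∑ j, ((C1 j : ℝ) + C2 j) := by
    intro j
    have e := Finset.single_le_sum (f := fun j => (C1 j : ℝ) + C2 j) (fun j _ => by positivity)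
      (Finset.mem_univ j)
    have e2 : (0 : ℝ) ≤ C2 j := (C2 j).2
    have e3 : (C1 j : ℝ) + C2 j ≤ ∑ j, ((C1 j : ℝ) + C2 j) := e
    linarith
  have hK2 : ∀ j, (C2 j : ℝ) ≤ ∑ j, ((C1 j : ℝ) + C2 j) := by
    intro j
    have e := Finset.single_le_sum (f := fun j => (C1 j : ℝ) + C2 j) (fun j _ => by positivity)
      (Finset.mem_univ j)
    have e2 : (0 : ℝ) ≤ C1 j := (C1 j).2
    have e3 : (C1 j : ℝ) + C2 j ≤ ∑ j, ((C1 j : ℝ) + C2 j) := e
    linarith
  refine ⟨∑ j, ((C1 j : ℝ) + C2 j), ∑ j, |C3 j|, ?_, ?_, ?_, ?_, ?_, ?_⟩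
  · positivity
  · positivity
  · intro j x y
    have := (hC1 j).norm_sub_le x y
    exact this.trans (mul_le_mul_of_nonneg_right (hK j) (norm_nonneg _))
  · intro j x
    refine (hC3 j x).trans ((le_abs_self _).trans ?_)
    exact Finset.single_le_sum (f := fun j => |C3 j|) (fun j _ => abs_nonneg _)
      (Finset.mem_univ j)
  · intro j
    exact (hY j).differentiable (by simp)
  · intro j x y
    have := (hC2 j).norm_sub_le x y
    exact this.trans (mul_le_mul_of_nonneg_right (hK2 j) (norm_nonneg _))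

variable {n : ℕ} {M : Type*} [TopologicalSpace M] [ChartedSpace (Eu n) M]
variable {P : PoissonStructure n M} {m : ℕ} {y0 : M}

/-- a chosen representative of a smooth function in the chart -/
noncomputable def LChart.rep (ch : LChart n y0) (f : Sm n M) : Eu n → ℝ := (ch.hat f).choose

theorem LChart.rep_contDiff (ch : LChart n y0) (f : Sm n M) : ContDiff ℝ ∞ (ch.rep f) :=
  (ch.hat f).choose_spec.1

theorem LChart.rep_compact (ch : LChart n y0) (f : Sm n M) : HasCompactSupport (ch.rep f) :=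
  (ch.hat f).choose_spec.2.1

theorem LChart.rep_eq (ch : LChart n y0) (f : Sm n M) {p : M} (hp : p ∈ ch.V) :
    f p = ch.rep f (ch.X p) := (ch.hat f).choose_spec.2.2 p hp

/-- The vector of a functional. -/
noncomputable def LChart.vec (ch : LChart n y0) (D : Sm n M →ₗ[ℝ] ℝ) : Eu n :=
  ∑ a, D (ch.x a) • basisV n a

theorem LChart.pd_vec [T2Space M] [IsManifold (𝓡 n) ∞ M] (ch : LChart n y0) (f : Sm n M) {p : M}
    (hp : p ∈ ch.V) {D : Sm n M →ₗ[ℝ] ℝ} (hD : IsPD p D) :
    fderiv ℝ (ch.rep f) (ch.X p) (ch.vec D) = D f := by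
  rw [ch.pd f (ch.rep f) (ch.rep_contDiff f) (fun q hq => ch.rep_eq f hq) hp hD, LChart.vec,
    map_sum]
  refine Finset.sum_congr rfl fun a _ => ?_
  rw [map_smul, smul_eq_mul, mul_comm]

/-- The frame fields in the chart, as vector fields on Euclidean space. -/
noncomputable def vf (F : Frame P m) (ch : LChart n y0) (j : Fin m) (z : Eu n) : Eu n :=
  ∑ a, ch.rep (F.Y j (ch.x a)) z • basisV n a

theorem vf_contDiff (F : Frame P m) (ch : LChart n y0) (j : Fin m) : ContDiff ℝ ∞ (vf F ch j) :=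
  ContDiff.sum fun _ _ => (ch.rep_contDiff _).smul contDiff_const

theorem vf_compact (F : Frame P m) (ch : LChart n y0) (j : Fin m) :
    HasCompactSupport (vf F ch j) := by
  have h : ∀ s : Finset (Fin n), HasCompactSupport
      (fun z => ∑ a ∈ s, ch.rep (F.Y j (ch.x a)) z • basisV n a) := by
    intro s
    classical
    induction s using Finset.induction_on with
    | empty =>
      simp only [Finset.sum_empty]
      exact HasCompactSupport.zero
    | insert a s ha ih =>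
      simp only [Finset.sum_insert ha]
      exact ((ch.rep_compact (F.Y j (ch.x a))).smul_right).add ih
  exact h Finset.univ

theorem vf_X (F : Frame P m) (ch : LChart n y0) (j : Fin m) {p : M} (hp : p ∈ ch.V) :
    vf F ch j (ch.X p) = ch.vec (F.YD j p) := by
  simp only [vf, LChart.vec, F.YD_apply]
  exact Finset.sum_congr rfl fun a _ => by rw [ch.rep_eq (F.Y j (ch.x a)) hp]

theorem vf_comm [T2Space M] [IsManifold (𝓡 n) ∞ M] (F : Frame P m) (ch : LChart n y0) {p : M}
    (hp : p ∈ ch.V) (hW : p ∈ F.W) (hT : ∀ f h, F.T f h p = 0) (i j : Fin m) :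
    fderiv ℝ (vf F ch i) (ch.X p) (vf F ch j (ch.X p))
      = fderiv ℝ (vf F ch j) (ch.X p) (vf F ch i (ch.X p)) := by
  have key : ∀ i j, fderiv ℝ (vf F ch i) (ch.X p) (vf F ch j (ch.X p))
      = ∑ a, F.Y j (F.Y i (ch.x a)) p • basisV n a := by
    intro i j
    have h1 : HasFDerivAt (vf F ch i) (∑ a, (fderiv ℝ (ch.rep (F.Y i (ch.x a))) (ch.X p)).smulRight
        (basisV n a)) (ch.X p) := by
      refine HasFDerivAt.fun_sum fun a _ => ?_
      exact (((ch.rep_contDiff (F.Y i (ch.x a))).differentiable (by simp)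
        (ch.X p)).hasFDerivAt).smul_const (basisV n a)
    rw [h1.fderiv, sum_apply]
    refine Finset.sum_congr rfl fun a _ => ?_
    rw [ContinuousLinearMap.smulRight_apply, vf_X F ch j hp, ch.pd_vec _ hp (F.isPD_YD j p),
      F.YD_apply]
  rw [key, key]
  exact Finset.sum_congr rfl fun a _ => by rw [F.Y_comm hW hT]

/-- The coordinate expression of a controlled curve. -/
theorem IsCtl.hasDeriv_X {ι : Type} [Fintype ι] {K : ι → Sm n M}
    {c : ι → ℝ → ℝ} {γ : ℝ → M} {T : ℝ} (hγ : IsCtl P K c γ T) (ch : LChart n y0)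
    {t : ℝ} (ht : t ∈ Icc 0 T) :
    HasDerivWithinAt (fun s => ch.X (γ s)) (ch.vec (∑ k, c k t • P.ham (K k) (γ t)))
      (Icc 0 T) t := by
  have h1 : (fun s => ch.X (γ s)) = fun s => ∑ a, ch.x a (γ s) • basisV n a := by
    funext s
    exact (coord_basis n (ch.X (γ s))).symm
  rw [h1]
  refine HasDerivWithinAt.fun_sum fun a _ => ?_
  have h2 := (hγ.der (ch.x a) t ht).smul_const (basisV n a)
  simpa [LinearMap.sum_apply, P.ham_apply] using h2

/-- From a curve in the chart to a curve in the manifold. -/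
theorem hasDeriv_of_chart [T2Space M] [IsManifold (𝓡 n) ∞ M] (ch : LChart n y0) {u : ℝ → Eu n}
    {s : Set ℝ} (hu : ∀ t ∈ s, u t ∈ ball (ch.X y0) ch.r) {t : ℝ} (ht : t ∈ s)
    {D : Sm n M →ₗ[ℝ] ℝ} (hD : IsPD (ch.σ (u t)) D) (hder : HasDerivWithinAt u (ch.vec D) s t)
    (f : Sm n M) : HasDerivWithinAt (fun t => f (ch.σ (u t))) (D f) s t := by
  have h1 : HasFDerivAt (ch.rep f) (fderiv ℝ (ch.rep f) (u t)) (u t) :=
    ((ch.rep_contDiff f).differentiable (by simp) (u t)).hasFDerivAt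
  have h2 := h1.comp_hasDerivWithinAt t hder
  have h3 : fderiv ℝ (ch.rep f) (u t) (ch.vec D) = D f := by
    have := ch.pd_vec f (ch.σ_mem _ (hu t ht)) hD
    rwa [ch.X_σ _ (hu t ht)] at this
  rw [h3] at h2
  refine h2.congr (fun t' ht' => ?_) ?_
  · rw [ch.rep_eq f (ch.σ_mem _ (hu t' ht')), ch.X_σ _ (hu t' ht')]
    rfl
  · rw [ch.rep_eq f (ch.σ_mem _ (hu t ht)), ch.X_σ _ (hu t ht)]
    rfl

theorem comb_vf (F : Frame P m) (ch : LChart n y0) (v : Fin m → ℝ) {p : M} (hp : p ∈ ch.V) :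
    comb (vf F ch) v (ch.X p) = ch.vec (∑ j, v j • F.YD j p) := by
  simp only [comb, vf_X F ch _ hp, LChart.vec, LinearMap.sum_apply, LinearMap.smul_apply,
    Finset.sum_smul, Finset.smul_sum, smul_smul, smul_eq_mul]
  rw [Finset.sum_comm]

end Pool.Agent.H.MP_5d95cf_gt
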