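import Mathlib

namespace Pool.Agent.H.MP_5d95cf_gt

open MeasureTheory Set Metric
open scoped ContDiff Topology

/-- Smoothness of integrals depending on a parameter, finite order. -/
theorem contDiff_paramIntegral_nat {E : Type} [NormedAddCommGroup E] [NormedSpace ℝ E]
    [FiniteDimensional ℝ E] (n : ℕ) :
    ∀ {F : Type} [NormedAddCommGroup F] [NormedSpace ℝ F] [CompleteSpace F]
      (f : E → ℝ → F), ContDiff ℝ n (fun p : E × ℝ => f p.1 p.2) →
      ContDiff ℝ n (fun x => ∫ s in (0 : ℝ)..1, f x s) := by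
  induction n with
  | zero =>
    intro F _ _ _ f hf
    have hc : Continuous (fun p : E × ℝ => f p.1 p.2) := hf.continuous
    rw [Nat.cast_zero, contDiff_zero]
    exact intervalIntegral.continuous_parametric_intervalIntegral_of_continuous' hc 0 1
  | succ n ih =>
    intro F _ _ _ f hf
    have hF : ContDiff ℝ ((n : WithTop ℕ∞) + 1) (fun p : E × ℝ => f p.1 p.2) := by
      simpa using hf
    rw [Nat.cast_succ]
    rw [contDiff_succ_iff_hasFDerivAt]
    let f' : E → ℝ → (E →L[ℝ] F) := fun x s =>
      (fderiv ℝ (fun p : E × ℝ => f p.1 p.2) (x, s)).comp (ContinuousLinearMap.inl ℝ E ℝ)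
    have hf' : ContDiff ℝ n (fun p : E × ℝ => f' p.1 p.2) := by
      have h1 : ContDiff ℝ n (fderiv ℝ (fun p : E × ℝ => f p.1 p.2)) :=
        hF.fderiv_right le_rfl
      exact h1.clm_comp contDiff_const
    refine ⟨fun x => ∫ s in (0 : ℝ)..1, f' x s, ih f' hf', ?_⟩
    intro x
    have hdiff : Differentiable ℝ (fun p : E × ℝ => f p.1 p.2) :=
      hF.differentiable (by simp)
    have hder : ∀ y s, HasFDerivAt (fun y => f y s) (f' y s) y := by
      intro y s
      have h1 := (hdiff (y, s)).hasFDerivAt
      have h2 : HasFDerivAt (fun y : E => (y, s)) (ContinuousLinearMap.inl ℝ E ℝ) y :=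
        hasFDerivAt_prodMk_left y s
      exact h1.comp y h2
    have hcf : Continuous (fun p : E × ℝ => f p.1 p.2) := hdiff.continuous
    have hcf' : Continuous (fun p : E × ℝ => f' p.1 p.2) := hf'.continuous
    have hK : IsCompact ((closedBall x 1) ×ˢ (Icc (0 : ℝ) 1)) :=
      (isCompact_closedBall x 1).prod isCompact_Icc
    obtain ⟨C, hC⟩ := hK.exists_bound_of_continuousOn hcf'.continuousOn
    refine intervalIntegral.hasFDerivAt_integral_of_dominated_of_fderiv_le
      (F := f) (F' := f') (bound := fun _ => C) (s := ball x 1)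
      (ball_mem_nhds x one_pos) ?_ ?_ ?_ ?_ ?_ ?_
    · refine Filter.Eventually.of_forall fun y => ?_
      exact (hcf.comp (Continuous.prodMk_right y)).aestronglyMeasurable
    · exact (hcf.comp (Continuous.prodMk_right x)).intervalIntegrable 0 1
    · exact (hcf'.comp (Continuous.prodMk_right x)).aestronglyMeasurable
    · refine Filter.Eventually.of_forall fun s hs y hy => ?_
      refine hC (y, s) ⟨ball_subset_closedBall hy, ?_⟩
      rw [uIoc_of_le zero_le_one] at hs
      exact ⟨hs.1.le, hs.2⟩
    · exact intervalIntegrable_const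
    · refine Filter.Eventually.of_forall fun s _ y _ => hder y s

/-- Smoothness of integrals depending on a parameter. -/
theorem contDiff_paramIntegral {E F : Type} [NormedAddCommGroup E] [NormedSpace ℝ E]
    [FiniteDimensional ℝ E] [NormedAddCommGroup F] [NormedSpace ℝ F] [CompleteSpace F]
    (f : E → ℝ → F) (hf : ContDiff ℝ ∞ (fun p : E × ℝ => f p.1 p.2)) :
    ContDiff ℝ ∞ (fun x => ∫ s in (0 : ℝ)..1, f x s) := by
  rw [contDiff_infty]
  intro n
  exact contDiff_paramIntegral_nat n f (hf.of_le (by exact_mod_cast le_top))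

/-- **Hadamard's lemma.** -/
theorem hadamard {E : Type} [NormedAddCommGroup E] [NormedSpace ℝ E]
    [FiniteDimensional ℝ E] (f : E → ℝ) (hf : ContDiff ℝ ∞ f) (z : E) :
    ∃ g : E → (E →L[ℝ] ℝ), ContDiff ℝ ∞ g ∧ g z = fderiv ℝ f z ∧
      ∀ w, f w = f z + g w (w - z) := by
  have hdf : ContDiff ℝ ∞ (fderiv ℝ f) := hf.fderiv_right (by exact_mod_cast le_top)
  have hsm : ContDiff ℝ ∞ (fun p : E × ℝ => fderiv ℝ f (z + p.2 • (p.1 - z))) := by
    apply hdf.comp
    exact contDiff_const.add (contDiff_snd.smul (contDiff_fst.sub contDiff_const))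
  refine ⟨fun w => ∫ s in (0 : ℝ)..1, fderiv ℝ f (z + s • (w - z)), ?_, ?_, ?_⟩
  · exact contDiff_paramIntegral (fun w s => fderiv ℝ f (z + s • (w - z))) hsm
  · simp
  · intro w
    have hd : Differentiable ℝ f := hf.differentiable (by simp)
    have hder : ∀ s ∈ uIcc (0 : ℝ) 1,
        HasDerivAt (fun s : ℝ => f (z + s • (w - z))) (fderiv ℝ f (z + s • (w - z)) (w - z)) s := by
      intro s _
      have h1 := (hd (z + s • (w - z))).hasFDerivAt
      have h2 : HasDerivAt (fun s : ℝ => z + s • (w - z)) (w - z) s := by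
        simpa using ((hasDerivAt_id s).smul_const (w - z)).const_add z
      exact h1.comp_hasDerivAt s h2
    have hcont : Continuous (fun s : ℝ => fderiv ℝ f (z + s • (w - z))) :=
      hdf.continuous.comp (by fun_prop)
    have hint : IntervalIntegrable (fun s : ℝ => fderiv ℝ f (z + s • (w - z)) (w - z))
        volume 0 1 := by
      apply Continuous.intervalIntegrable
      exact hcont.clm_apply continuous_const
    have h := intervalIntegral.integral_eq_sub_of_hasDerivAt hder hint
    have h3 : (∫ s in (0 : ℝ)..1, fderiv ℝ f (z + s • (w - z))) (w - z)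
        = ∫ s in (0 : ℝ)..1, fderiv ℝ f (z + s • (w - z)) (w - z) := by
      rw [ContinuousLinearMap.intervalIntegral_apply]
      exact hcont.intervalIntegrable 0 1
    show f w = f z + (∫ s in (0 : ℝ)..1, fderiv ℝ f (z + s • (w - z))) (w - z)
    rw [h3, h]
    simp

end Pool.Agent.H.MP_5d95cf_gt
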