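import Mathlib

namespace Pool.Agent.H.MP_5d95cf_gt

open Set Filter
open scoped Topology

/-- If homeomorphisms converge to a homeomorphism in the compact-open topology, so do their
inverses, on locally compact, locally connected Hausdorff spaces. -/
theorem tendsto_inverse {M : Type*} [TopologicalSpace M] [T2Space M] [LocallyCompactSpace M]
    [LocallyConnectedSpace M] (φ : M ≃ₜ M) (ψ : ℕ → M ≃ₜ M)
    (h : Tendsto (fun k => ((ψ k : C(M, M)))) atTop (𝓝 (φ : C(M, M)))) :
    Tendsto (fun k => (((ψ k).symm : C(M, M)))) atTop (𝓝 (φ.symm : C(M, M))) := by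
  rw [ContinuousMap.tendsto_nhds_compactOpen] at h ⊢
  -- the local claim
  have hloc : ∀ (y : M) (U : Set M), IsOpen U → φ.symm y ∈ U →
      ∃ N ∈ 𝓝 y, ∀ᶠ k in atTop, MapsTo (ψ k).symm N U := by
    intro y U hU hyU
    set x := φ.symm y with hx
    have hφx : φ x = y := by rw [hx]; simp
    obtain ⟨Q, ⟨hQx, hQc⟩, hQU⟩ := (compact_basis_nhds x).mem_iff.mp (hU.mem_nhds hyU)
    have hQU' : Q ⊆ U := hQU
    set S := Q \ interior Q with hS
    have hSc : IsCompact S := hQc.diff isOpen_interior
    have hxB : x ∈ interior Q := mem_interior_iff_mem_nhds.mpr hQx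
    have hyS : y ∉ φ '' S := by
      rintro ⟨s, hs, hsy⟩
      have : s = x := φ.injective (by rw [hsy, hφx])
      rw [this] at hs
      exact hs.2 hxB
    have hsep : SeparatedNhds (φ '' S) {y} :=
      SeparatedNhds.of_isCompact_isCompact (hSc.image φ.continuous) isCompact_singleton
        (disjoint_singleton_right.mpr hyS)
    obtain ⟨O2, O1, hO2, hO1, hSO2, hyO1, hdisj⟩ := hsep
    have hyO1' : y ∈ O1 := hyO1 rfl
    obtain ⟨N, ⟨hNo, hyN, hNc⟩, hNO1⟩ :=
      ((LocallyConnectedSpace.open_connected_basis y).mem_iff).mp (hO1.mem_nhds hyO1')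
    refine ⟨N, hNo.mem_nhds hyN, ?_⟩
    have e1 := h S hSc O2 hO2 (fun s hs => hSO2 (mem_image_of_mem φ hs))
    have e2 := h {x} isCompact_singleton N hNo (by
      intro s hs
      rw [mem_singleton_iff.mp hs]
      show φ x ∈ N
      rw [hφx]
      exact hyN)
    filter_upwards [e1, e2] with k hk1 hk2
    have hk2' : ψ k x ∈ N := hk2 rfl
    have hpre : IsPreconnected ((ψ k).symm '' N) :=
      (hNc.isPreconnected).image _ (ψ k).symm.continuous.continuousOn
    have hsub : (ψ k).symm '' N ⊆ interior Q ∪ Qᶜ := by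
      rintro _ ⟨y', hy', rfl⟩
      by_contra hcon
      rw [mem_union, not_or] at hcon
      have h1 : (ψ k).symm y' ∈ S := ⟨not_not.mp hcon.2, hcon.1⟩
      have h2 : ψ k ((ψ k).symm y') ∈ O2 := hk1 h1
      rw [Homeomorph.apply_symm_apply] at h2
      exact (disjoint_left.mp hdisj h2) (hNO1 hy')
    have hne : ((ψ k).symm '' N ∩ interior Q).Nonempty := by
      refine ⟨x, ⟨ψ k x, hk2', ?_⟩, hxB⟩
      simp
    have hin := hpre.subset_left_of_subset_union isOpen_interior hQc.isClosed.isOpen_compl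
      (disjoint_compl_right.mono_left interior_subset) hsub hne
    intro y' hy'
    exact hQU' (interior_subset (hin (mem_image_of_mem _ hy')))
  intro K hK U hU hKU
  refine hK.induction_on (p := fun s => ∀ᶠ k in atTop, MapsTo (ψ k).symm s U) ?_ ?_ ?_ ?_
  · exact Eventually.of_forall fun k => mapsTo_empty _ _
  · intro s t hst ht
    filter_upwards [ht] with k hk
    exact hk.mono_left hst
  · intro s t hs ht
    filter_upwards [hs, ht] with k hk1 hk2
    exact mapsTo_union.mpr ⟨hk1, hk2⟩
  · intro y hy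
    obtain ⟨N, hN, hNk⟩ := hloc y U hU (hKU hy)
    exact ⟨N, mem_nhdsWithin_of_mem_nhds hN, hNk⟩

end Pool.Agent.H.MP_5d95cf_gt
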