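import Pool.Agent.H.MP_5d95cf_gt.Defs
import Pool.Agent.H.MP_5d95cf_gt.Hadamard

namespace Pool.Agent.H.MP_5d95cf_gt

open Set Metric
open scoped Manifold ContDiff Topology

variable {n : ℕ} {M : Type*} [TopologicalSpace M] [ChartedSpace (Eu n) M]

/-- evaluation at a point -/
noncomputable def evL (p : M) : Sm n M →ₗ[ℝ] ℝ where
  toFun f := f p
  map_add' _ _ := rfl
  map_smul' _ _ := rfl

@[simp] theorem evL_apply (p : M) (f : Sm n M) : evL p f = f p := rfl

theorem Sm.add_apply (f g : Sm n M) (p : M) : (f + g) p = f p + g p := rfl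
theorem Sm.sub_apply (f g : Sm n M) (p : M) : (f - g) p = f p - g p := rfl
theorem Sm.neg_apply (f : Sm n M) (p : M) : (-f) p = -f p := rfl
theorem Sm.mul_apply (f g : Sm n M) (p : M) : (f * g) p = f p * g p := rfl
theorem Sm.smul_apply (c : ℝ) (f : Sm n M) (p : M) : (c • f) p = c * f p := rfl
theorem Sm.one_apply (p : M) : (1 : Sm n M) p = 1 := rfl
theorem Sm.zero_apply (p : M) : (0 : Sm n M) p = 0 := rfl
theorem Sm.sum_apply {ι : Type*} (s : Finset ι) (f : ι → Sm n M) (p : M) :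
    (∑ i ∈ s, f i) p = ∑ i ∈ s, f i p :=
  map_sum (evL p) f s

/-- point derivations -/
def IsPD (p : M) (D : Sm n M →ₗ[ℝ] ℝ) : Prop :=
  ∀ f g, D (f * g) = f p * D g + g p * D f

theorem IsPD.one {p : M} {D : Sm n M →ₗ[ℝ] ℝ} (hD : IsPD p D) : D 1 = 0 := by
  have := hD 1 1
  rw [mul_one, Sm.one_apply] at this
  linarith

/-- Locality of point derivations. -/
theorem IsPD.congr [T2Space M] [IsManifold (𝓡 n) ∞ M] {p : M} {D : Sm n M →ₗ[ℝ] ℝ}
    (hD : IsPD p D) {f g : Sm n M} (h : ∀ᶠ q in 𝓝 p, f q = g q) : D f = D g := by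
  have h0 : {q | f q = g q} ∈ 𝓝 p := h
  obtain ⟨B, hB, -⟩ := (SmoothBumpFunction.nhds_basis_support (I := 𝓡 n) h0).mem_iff.mp h0
  let ρ : Sm n M := ⟨B, B.contMDiff⟩
  have hz : ρ * (f - g) = 0 := by
    apply ContMDiffMap.ext
    intro q
    rw [Sm.mul_apply, Sm.sub_apply, Sm.zero_apply]
    by_cases hq : B q = 0
    · show B q * _ = 0
      rw [hq, zero_mul]
    · have hq' : f q = g q := hB (subset_tsupport _ hq)
      rw [hq', sub_self, mul_zero]
  have h1 := hD ρ (f - g)
  rw [hz, map_zero, Sm.sub_apply] at h1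
  have h2 : f p = g p := h.self_of_nhds
  have h3 : ρ p = 1 := B.eq_one
  rw [h2, h3, sub_self, zero_mul, add_zero, one_mul, map_sub] at h1
  linarith

/-- composition of a smooth function with a smooth map to a vector space -/
noncomputable def compSm {E' : Type} [NormedAddCommGroup E'] [NormedSpace ℝ E']
    (F : E' → ℝ) (hF : ContDiff ℝ ∞ F) (X : ContMDiffMap (𝓡 n) 𝓘(ℝ, E') M E' ∞) : Sm n M :=
  ⟨fun p => F (X p), hF.contMDiff.comp X.contMDiff⟩

@[simp] theorem compSm_apply {E' : Type} [NormedAddCommGroup E'] [NormedSpace ℝ E']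
    (F : E' → ℝ) (hF : ContDiff ℝ ∞ F) (X : ContMDiffMap (𝓡 n) 𝓘(ℝ, E') M E' ∞) (p : M) :
    compSm F hF X p = F (X p) := rfl

/-- The chain rule for point derivations. -/
theorem IsPD.chain {E' : Type} [NormedAddCommGroup E'] [NormedSpace ℝ E'] [FiniteDimensional ℝ E']
    {ι : Type*} [Fintype ι] (ℓ : ι → E' →L[ℝ] ℝ) (ε : ι → E') (hℓ : ∀ w, ∑ a, ℓ a w • ε a = w)
    {p : M} {D : Sm n M →ₗ[ℝ] ℝ} (hD : IsPD p D)
    (X : ContMDiffMap (𝓡 n) 𝓘(ℝ, E') M E' ∞) (F : E' → ℝ) (hF : ContDiff ℝ ∞ F) :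
    D (compSm F hF X)
      = ∑ a, fderiv ℝ F (X p) (ε a) * D (compSm (ℓ a) (ℓ a).contDiff X) := by
  obtain ⟨g, hg, hgz, hgw⟩ := hadamard F hF (X p)
  have hga : ∀ a, ContDiff ℝ ∞ (fun w => g w (ε a)) := fun a => hg.clm_apply contDiff_const
  have hdec : compSm F hF X = F (X p) • (1 : Sm n M)
      + ∑ a, compSm (fun w => g w (ε a)) (hga a) X *
        (compSm (ℓ a) (ℓ a).contDiff X - ℓ a (X p) • (1 : Sm n M)) := by
    apply ContMDiffMap.ext
    intro q
    rw [Sm.add_apply, Sm.sum_apply, Sm.smul_apply, Sm.one_apply, mul_one]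
    simp only [Sm.mul_apply, Sm.sub_apply, Sm.smul_apply, Sm.one_apply, mul_one, compSm_apply]
    rw [hgw (X q)]
    congr 1
    have h1 : X q - X p = ∑ a, (ℓ a (X q) - ℓ a (X p)) • ε a := by
      rw [← hℓ (X q - X p)]
      simp
    conv_lhs => rw [h1]
    rw [map_sum]
    refine Finset.sum_congr rfl fun a _ => ?_
    rw [map_smul, smul_eq_mul, mul_comm]
  rw [hdec, map_add, map_smul, hD.one, smul_zero, zero_add, map_sum]
  refine Finset.sum_congr rfl fun a _ => ?_
  rw [hD, map_sub, map_smul, hD.one, smul_zero, sub_zero, Sm.sub_apply, Sm.smul_apply,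
    Sm.one_apply, compSm_apply, compSm_apply, mul_one, sub_self, zero_mul, add_zero, hgz]

/-- A convenient package for a chart around a point. -/
structure LChart (n : ℕ) {M : Type*} [TopologicalSpace M] [ChartedSpace (Eu n) M] (y0 : M) where
  /-- radius -/
  r : ℝ
  r_pos : 0 < r
  /-- global smooth extension of the chart -/
  X : ContMDiffMap (𝓡 n) 𝓘(ℝ, Eu n) M (Eu n) ∞
  /-- the domain -/
  V : Set M
  V_open : IsOpen V
  mem : y0 ∈ V
  /-- the inverse chart -/
  σ : Eu n → M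
  X_mem : ∀ p ∈ V, X p ∈ ball (X y0) r
  σ_mem : ∀ z ∈ ball (X y0) r, σ z ∈ V
  σ_X : ∀ p ∈ V, σ (X p) = p
  X_σ : ∀ z ∈ ball (X y0) r, X (σ z) = z
  σ_cont : ContinuousOn σ (ball (X y0) r)
  σ_smooth : ContMDiffOn 𝓘(ℝ, Eu n) (𝓡 n) ∞ σ (ball (X y0) r)
  hat : ∀ f : Sm n M, ∃ F : Eu n → ℝ, ContDiff ℝ ∞ F ∧ HasCompactSupport F ∧
    ∀ p ∈ V, f p = F (X p)

theorem exists_LChart [T2Space M] [IsManifold (𝓡 n) ∞ M] (y0 : M) : Nonempty (LChart n y0) := by
  obtain ⟨B⟩ : Nonempty (SmoothBumpFunction (𝓡 n) y0) := inferInstance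
  set e := extChartAt (𝓡 n) y0 with he
  have hX : ContMDiff (𝓡 n) 𝓘(ℝ, Eu n) ∞ (fun p => B p • e p) := by
    apply B.contMDiff_smul
    have := contMDiffOn_extChartAt (I := 𝓡 n) (n := ∞) (x := y0)
    exact this
  have hsub : closedBall (e y0) B.rOut ⊆ e.target := by
    have := B.closedBall_subset
    rwa [ModelWithCorners.range_eq_univ, inter_univ] at this
  have hsub' : ball (e y0) B.rIn ⊆ e.target :=
    (ball_subset_ball B.rIn_lt_rOut.le).trans (ball_subset_closedBall.trans hsub)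
  have hopen : IsOpen e.target := isOpen_extChartAt_target y0
  let V : Set M := e.source ∩ e ⁻¹' ball (e y0) B.rIn
  have hVo : IsOpen V := (continuousOn_extChartAt y0).isOpen_inter_preimage
    (isOpen_extChartAt_source y0) isOpen_ball
  have hBV : ∀ p ∈ V, B p = 1 := by
    intro p hp
    apply B.one_of_dist_le
    · have := hp.1
      rwa [he, extChartAt_source] at this
    · exact (mem_ball.mp hp.2).le
  have hXV : ∀ p ∈ V, B p • e p = e p := by
    intro p hp
    rw [hBV p hp, one_smul]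
  have hy0 : y0 ∈ V := ⟨mem_extChartAt_source y0, mem_ball_self B.rIn_pos⟩
  have hXy0 : B y0 • e y0 = e y0 := hXV y0 hy0
  refine ⟨⟨B.rIn, B.rIn_pos, ⟨fun p => B p • e p, hX⟩, V, hVo, hy0, e.symm,
    ?_, ?_, ?_, ?_, ?_, ?_, ?_⟩⟩
  · intro p hp
    show B p • e p ∈ ball (B y0 • e y0) B.rIn
    rw [hXV p hp, hXy0]
    exact hp.2
  · intro z hz
    change z ∈ ball (B y0 • e y0) B.rIn at hz
    rw [hXy0] at hz
    refine ⟨e.map_target (hsub' hz), ?_⟩
    rw [mem_preimage, e.right_inv (hsub' hz)]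
    exact hz
  · intro p hp
    show e.symm (B p • e p) = p
    rw [hXV p hp]
    exact e.left_inv hp.1
  · intro z hz
    change z ∈ ball (B y0 • e y0) B.rIn at hz
    rw [hXy0] at hz
    have hzV : e.symm z ∈ V := by
      refine ⟨e.map_target (hsub' hz), ?_⟩
      rw [mem_preimage, e.right_inv (hsub' hz)]
      exact hz
    show B (e.symm z) • e (e.symm z) = z
    rw [hXV _ hzV]
    exact e.right_inv (hsub' hz)
  · show ContinuousOn e.symm (ball (B y0 • e y0) B.rIn)
    rw [hXy0]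
    exact (continuousOn_extChartAt_symm y0).mono hsub'
  · show ContMDiffOn 𝓘(ℝ, Eu n) (𝓡 n) ∞ e.symm (ball (B y0 • e y0) B.rIn)
    rw [hXy0]
    exact (contMDiffOn_extChartAt_symm y0).mono hsub'
  · intro f
    refine ⟨fun z => B.toContDiffBump z * f (e.symm z), ?_, ?_, ?_⟩
    · rw [contDiff_iff_contDiffAt]
      intro z
      by_cases hz : z ∈ e.target
      · have h1 : ContMDiffOn 𝓘(ℝ, Eu n) (𝓡 n) ∞ e.symm e.target :=
          contMDiffOn_extChartAt_symm y0
        have h2 : ContMDiffAt 𝓘(ℝ, Eu n) (𝓡 n) ∞ e.symm z :=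
          h1.contMDiffAt (hopen.mem_nhds hz)
        have h3 : ContMDiffAt 𝓘(ℝ, Eu n) 𝓘(ℝ, ℝ) ∞ (fun z => f (e.symm z)) z :=
          f.contMDiff.contMDiffAt.comp z h2
        exact (B.toContDiffBump.contDiff.contDiffAt).mul h3.contDiffAt
      · have hz' : z ∉ tsupport B.toContDiffBump := by
          rw [ContDiffBump.tsupport_eq]
          intro h
          exact hz (hsub h)
        have h4 : (fun z => B.toContDiffBump z * f (e.symm z)) =ᶠ[𝓝 z] fun _ => 0 := by
          have h5 := notMem_tsupport_iff_eventuallyEq.mp hz'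
          filter_upwards [h5] with w hw
          rw [hw]
          simp
        exact contDiffAt_const.congr_of_eventuallyEq h4
    · exact B.toContDiffBump.hasCompactSupport.mul_right
    · intro p hp
      show f p = B.toContDiffBump (B p • e p) * f (e.symm (B p • e p))
      rw [hXV p hp, e.left_inv hp.1, B.toContDiffBump.one_of_mem_closedBall, one_mul]
      exact ball_subset_closedBall hp.2

/-- coordinates of the Euclidean space -/
noncomputable def coordL (n : ℕ) (a : Fin n) : Eu n →L[ℝ] ℝ := EuclideanSpace.proj a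

/-- basis vectors of the Euclidean space -/
noncomputable def basisV (n : ℕ) (a : Fin n) : Eu n := EuclideanSpace.single a (1 : ℝ)

theorem coord_basis (n : ℕ) (w : Eu n) : ∑ a, coordL n a w • basisV n a = w := by
  ext i
  simp [coordL, basisV, Finset.sum_apply, Pi.single_apply]

/-- coordinate functions on the manifold -/
noncomputable def LChart.x {y0 : M} (c : LChart n y0) (a : Fin n) : Sm n M :=
  compSm (coordL n a) (coordL n a).contDiff c.X

/-- First order dependence of point derivations, in the chart. -/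
theorem LChart.pd [T2Space M] [IsManifold (𝓡 n) ∞ M] {y0 : M} (c : LChart n y0) (f : Sm n M)
    (F : Eu n → ℝ) (hF : ContDiff ℝ ∞ F) (hfF : ∀ p ∈ c.V, f p = F (c.X p)) {p : M} (hp : p ∈ c.V)
    {D : Sm n M →ₗ[ℝ] ℝ} (hD : IsPD p D) :
    D f = ∑ a, fderiv ℝ F (c.X p) (basisV n a) * D (c.x a) := by
  have h1 : D f = D (compSm F hF c.X) := by
    apply hD.congr
    filter_upwards [c.V_open.mem_nhds hp] with q hq
    exact hfF q hq
  rw [h1, hD.chain (coordL n) (basisV n) (coord_basis n) c.X F hF]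
  rfl

end Pool.Agent.H.MP_5d95cf_gt
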