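import Pool.Agent.H.MP_5d95cf_gt.Rank
import Pool.Agent.H.MP_5d95cf_gt.Inverse

namespace Pool.Agent.H.MP_5d95cf_gt

open Set Filter
open scoped Manifold ContDiff Topology

variable {n : ℕ} {M : Type*} [TopologicalSpace M] [ChartedSpace (Eu n) M]
variable {P : PoissonStructure n M}

/-! ### Poisson diffeomorphisms -/

theorem pull_apply (ψ : Diffeomorph (𝓡 n) (𝓡 n) M M ∞) (f : Sm n M) (p : M) :
    pull ψ f p = f (ψ p) := rfl

theorem pull_symm (ψ : Diffeomorph (𝓡 n) (𝓡 n) M M ∞) (f : Sm n M) :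
    pull ψ (pull ψ.symm f) = f := by
  apply ContMDiffMap.ext
  intro p
  rw [pull_apply, pull_apply, Diffeomorph.symm_apply_apply]

theorem pull_symm' (ψ : Diffeomorph (𝓡 n) (𝓡 n) M M ∞) (f : Sm n M) :
    pull ψ.symm (pull ψ f) = f := by
  apply ContMDiffMap.ext
  intro p
  rw [pull_apply, pull_apply, Diffeomorph.apply_symm_apply]

theorem IsPoissonDiffeo.symm {ψ : Diffeomorph (𝓡 n) (𝓡 n) M M ∞} (h : IsPoissonDiffeo P ψ) :
    IsPoissonDiffeo P ψ.symm := by
  intro f g
  rw [← pull_symm' ψ (P.br (pull ψ.symm f) (pull ψ.symm g)), ← h, pull_symm, pull_symm]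

theorem RankGE.of_diffeo {ψ : Diffeomorph (𝓡 n) (𝓡 n) M M ∞} (h : IsPoissonDiffeo P ψ) {m : ℕ}
    {p : M} (hr : RankGE P m (ψ p)) : RankGE P m p := by
  obtain ⟨a, g, hdet⟩ := hr
  refine ⟨fun i => pull ψ (a i), fun j => pull ψ (g j), ?_⟩
  have h1 : brMat P (fun i => pull ψ (a i)) (fun j => pull ψ (g j)) p = brMat P a g (ψ p) := by
    ext i j
    show P.br (pull ψ (a i)) (pull ψ (g j)) p = P.br (a i) (g j) (ψ p)
    rw [h, pull_apply]
  rw [h1]
  exact hdet

theorem rankGE_diffeo {ψ : Diffeomorph (𝓡 n) (𝓡 n) M M ∞} (h : IsPoissonDiffeo P ψ) {m : ℕ}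
    {p : M} : RankGE P m (ψ p) ↔ RankGE P m p := by
  refine ⟨RankGE.of_diffeo h, fun hr => ?_⟩
  apply RankGE.of_diffeo h.symm
  rwa [Diffeomorph.symm_apply_apply]

theorem Step.diffeo {ψ : Diffeomorph (𝓡 n) (𝓡 n) M M ∞} (h : IsPoissonDiffeo P ψ) {U V : Set M}
    (hUV : MapsTo ψ U V) {y z : M} (hs : Step P U y z) : Step P V (ψ y) (ψ z) := by
  obtain ⟨H, γ, T, hT, h0, h1, hU, hc, hd⟩ := hs
  refine ⟨pull ψ.symm H, fun t => ψ (γ t), T, hT, congrArg ψ h0, congrArg ψ h1,
    fun t ht => hUV (hU t ht), ψ.continuous.comp_continuousOn hc, fun f t ht => ?_⟩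
  have h2 := hd (pull ψ f) t ht
  have h3 : P.br (pull ψ f) H (γ t) = P.br f (pull ψ.symm H) (ψ (γ t)) := by
    rw [← pull_apply, ← h, pull_symm]
  rw [h3] at h2
  exact h2

theorem Reach.diffeo {ψ : Diffeomorph (𝓡 n) (𝓡 n) M M ∞} (h : IsPoissonDiffeo P ψ)
    {U V : Set M} (hUV : MapsTo ψ U V) {y z : M} (hs : Reach P U y z) :
    Reach P V (ψ y) (ψ z) := by
  induction hs with
  | refl => exact Relation.ReflTransGen.refl
  | tail _ hs ih => exact ih.tail (hs.diffeo h hUV)

/-! ### Symmetry and subarcs -/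

theorem Step.symm {U : Set M} {y z : M} (hs : Step P U y z) : Step P U z y := by
  obtain ⟨H, γ, T, hT, h0, h1, hU, hc, hd⟩ := hs
  have hmaps : MapsTo (fun t : ℝ => T - t) (Icc 0 T) (Icc 0 T) := by
    intro t ht
    exact ⟨by linarith [ht.2], by linarith [ht.1]⟩
  refine ⟨-H, fun t => γ (T - t), T, hT, by simpa using h1, by simpa using h0,
    fun t ht => hU _ (hmaps ht), hc.comp (by fun_prop) hmaps, fun f t ht => ?_⟩
  have h2 := hd f (T - t) (hmaps ht)
  have h3 : HasDerivWithinAt (fun t : ℝ => T - t) (-1) (Icc 0 T) t := by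
    simpa using (hasDerivWithinAt_id t (Icc 0 T)).const_sub T
  have h4 := HasDerivWithinAt.comp (h₂ := fun s => f (γ s)) (h := fun t => T - t) t h2 h3 hmaps
  rw [map_neg, Sm.neg_apply]
  have h5 : P.br f H (γ (T - t)) * -1 = -P.br f H (γ (T - t)) := by ring
  rw [h5] at h4
  exact h4

theorem Reach.symm {U : Set M} {y z : M} (hs : Reach P U y z) : Reach P U z y := by
  induction hs with
  | refl => exact Relation.ReflTransGen.refl
  | tail _ hs ih => exact Relation.ReflTransGen.head hs.symm ih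

theorem IsTraj.sub {H : Sm n M} {γ : ℝ → M} {T : ℝ} (h : IsTraj P H γ T) {s t : ℝ}
    (hs : s ∈ Icc 0 T) (ht : t ∈ Icc 0 T) :
    IsTraj P H (fun r => γ (s + r)) (t - s) := by
  have hmaps : MapsTo (fun r : ℝ => s + r) (Icc 0 (t - s)) (Icc 0 T) := by
    intro r hr
    exact ⟨by linarith [hr.1, hs.1], by linarith [hr.2, ht.2]⟩
  refine ⟨h.1.comp (by fun_prop) hmaps, fun f r hr => ?_⟩
  have h2 := h.2 f (s + r) (hmaps hr)
  have h3 : HasDerivWithinAt (fun r : ℝ => s + r) 1 (Icc 0 (t - s)) r := by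
    simpa using (hasDerivWithinAt_id r (Icc 0 (t - s))).const_add s
  have h4 := HasDerivWithinAt.comp (h₂ := fun s => f (γ s)) (h := fun r => s + r) r h2 h3 hmaps
  rw [mul_one] at h4
  exact h4

theorem IsTraj.step {H : Sm n M} {γ : ℝ → M} {T : ℝ} (h : IsTraj P H γ T) {s t : ℝ}
    (hs : s ∈ Icc 0 T) (ht : t ∈ Icc 0 T) (hst : s ≤ t) {U : Set M}
    (hU : ∀ r ∈ Icc s t, γ r ∈ U) : Step P U (γ s) (γ t) := by
  refine ⟨H, fun r => γ (s + r), t - s, by linarith, by simp, by simp, fun r hr => ?_,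
    h.sub hs ht⟩
  exact hU _ ⟨by linarith [hr.1], by linarith [hr.2]⟩

/-! ### The local statement -/

theorem exists_rank [T2Space M] [IsManifold (𝓡 n) ∞ M] (P : PoissonStructure n M) (x : M) :
    ∃ m, RankGE P m x ∧ ¬ RankGE P (m + 1) x := by
  by_contra hcon
  push Not at hcon
  have h : ∀ m, RankGE P m x := by
    intro m
    induction m with
    | zero => exact rankGE_zero P x
    | succ m ih => exact hcon m ih
  have := (h (n + 1)).le
  omega

/-- Convergence of the inverses. -/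
theorem IsPoissonHomeo.symm [T2Space M] [IsManifold (𝓡 n) ∞ M] {φ : M ≃ₜ M}
    (h : IsPoissonHomeo P φ) : IsPoissonHomeo P φ.symm := by
  obtain ⟨ψ, hψ, hlim⟩ := h
  have : LocallyCompactSpace M := Manifold.locallyCompact_of_finiteDimensional (𝓡 n)
  have : LocallyConnectedSpace M := ChartedSpace.locallyConnectedSpace (Eu n) M
  exact ⟨fun k => (ψ k).symm, fun k => (hψ k).symm,
    tendsto_inverse φ (fun k => (ψ k).toHomeomorph) hlim⟩

theorem tendsto_eval {φ : M ≃ₜ M} {ψ : ℕ → Diffeomorph (𝓡 n) (𝓡 n) M M ∞}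
    (hlim : Tendsto (fun k => ((ψ k).toHomeomorph : C(M, M))) atTop (𝓝 (φ : C(M, M))))
    (x : M) : Tendsto (fun k => ψ k x) atTop (𝓝 (φ x)) := by
  have h1 : Continuous fun f : C(M, M) => f x := continuous_eval_const x
  exact (h1.tendsto _).comp hlim

/-- The main local step. -/
theorem IsPoissonHomeo.local [T2Space M] [IsManifold (𝓡 n) ∞ M] {φ : M ≃ₜ M}
    (h : IsPoissonHomeo P φ) (x0 : M) {V' : Set M} (hV' : IsOpen V') (hx0 : φ x0 ∈ V') :
    ∃ D : Set M, IsOpen D ∧ x0 ∈ D ∧ ∀ x, Reach P D x0 x → Reach P V' (φ x0) (φ x) := by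
  have : LocallyCompactSpace M := Manifold.locallyCompact_of_finiteDimensional (𝓡 n)
  obtain ⟨m, hm, hm1⟩ := exists_rank P x0
  obtain ⟨ψ', hψ', hlim'⟩ := h.symm
  obtain ⟨ψ, hψ, hlim⟩ := h
  set y0 := φ x0 with hy0
  -- the rank at the image point
  have hrank : RankGE P m y0 := by
    have h1 : Tendsto (fun k => ψ' k y0) atTop (𝓝 x0) := by
      have := tendsto_eval hlim' y0
      rwa [hy0, Homeomorph.symm_apply_apply] at this
    have h2 : ∀ᶠ k in atTop, RankGE P m (ψ' k y0) :=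
      h1.eventually ((isOpen_rankGE P m).mem_nhds hm)
    obtain ⟨k, hk⟩ := h2.exists
    exact (rankGE_diffeo (hψ' k)).mp hk
  obtain ⟨a, g, hdet⟩ := hrank
  obtain ⟨F, hFW⟩ := exists_frame P a g hdet
  obtain ⟨ch⟩ := exists_LChart (n := n) y0
  obtain ⟨K, C, r, ε, hgood⟩ := exists_good F ch hFW hV' hx0
  set N := nbd F ch r ε with hN
  have hNo : IsOpen N := isOpen_nbd F ch r ε
  have hy0N : y0 ∈ N := hgood.mem_nbd
  -- the domain
  obtain ⟨Q, ⟨hQx, hQc⟩, hQN⟩ := (compact_basis_nhds x0).mem_iff.mp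
    ((hNo.preimage φ.continuous).mem_nhds (show x0 ∈ φ ⁻¹' N from hy0N))
  refine ⟨interior Q, isOpen_interior, mem_interior_iff_mem_nhds.mpr hQx, ?_⟩
  intro x hx
  have hxQ : x ∈ Q := by
    rcases Relation.ReflTransGen.cases_tail hx with h1 | ⟨z, -, hz⟩
    · rw [h1]
      exact mem_of_mem_nhds hQx
    · obtain ⟨H, γ, T, hT, h0, h1, hU, -⟩ := hz
      rw [← h1]
      exact interior_subset (hU T (right_mem_Icc.mpr hT))
  have hφxN : φ x ∈ N := hQN hxQ
  have hev : ∀ᶠ k in atTop, MapsTo (ψ k) Q N :=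
    (ContinuousMap.tendsto_nhds_compactOpen.mp hlim) Q hQc N hNo hQN
  -- the plaque equation along the sequence
  have hplaque : ∀ᶠ k in atTop,
      ψ k x = psi F ch (F.A (ψ k x) - F.A (ψ k x0)) (ψ k x0) := by
    filter_upwards [hev] with k hk
    have hx0N : ψ k x0 ∈ N := hk (mem_of_mem_nhds hQx)
    have h1 : ¬ RankGE P (m + 1) (ψ k x0) := fun h => hm1 ((rankGE_diffeo (hψ k)).mp h)
    have h2 : ∀ f g, F.T f g (ψ k x0) = 0 := fun f g =>
      F.T_eq_zero (hgood.nbd_sub hx0N).1 h1 f g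
    exact hgood.reach_eq hx0N h2 (hx.diffeo (hψ k) (hk.mono_left interior_subset))
  -- passage to the limit
  have hlx := tendsto_eval hlim x
  have hlx0 := tendsto_eval hlim x0
  have hcA : Continuous F.A := continuous_pi fun i => (F.a i).contMDiff.continuous
  have hpair : Tendsto (fun k => (F.A (ψ k x) - F.A (ψ k x0), ψ k x0)) atTop
      (𝓝 (F.A (φ x) - F.A y0, y0)) := by
    refine Tendsto.prodMk_nhds ?_ hlx0
    exact ((hcA.tendsto _).comp hlx).sub ((hcA.tendsto _).comp hlx0)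
  have hcont := hgood.continuousAt_psi hy0N hφxN
  have hlim2 : Tendsto (fun k => psi F ch (F.A (ψ k x) - F.A (ψ k x0)) (ψ k x0)) atTop
      (𝓝 (psi F ch (F.A (φ x) - F.A y0) y0)) := hcont.tendsto.comp hpair
  have heq : φ x = psi F ch (F.A (φ x) - F.A y0) y0 :=
    tendsto_nhds_unique hlx (hlim2.congr' (hplaque.mono fun k hk => hk.symm))
  rw [heq]
  exact hgood.realize (hgood.norm_A_sub hy0N hφxN).le

/-! ### The global statement -/

theorem IsPoissonHomeo.step [T2Space M] [IsManifold (𝓡 n) ∞ M] {φ : M ≃ₜ M}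
    (h : IsPoissonHomeo P φ) {y z : M} (hs : Step P univ y z) :
    Reach P univ (φ y) (φ z) := by
  obtain ⟨H, γ, T, hT, h0, h1, -, hγ⟩ := hs
  have key := (isPreconnected_Icc (a := (0 : ℝ)) (b := T)).induction₂
    (fun s t => Reach P univ (φ (γ s)) (φ (γ t))) ?_
    (fun _ _ _ _ _ _ h1 h2 => h1.trans h2) (fun _ _ _ _ h => h.symm)
    (left_mem_Icc.mpr hT) (right_mem_Icc.mpr hT)
  · rw [h0, h1] at key
    exact key
  · intro s hs
    obtain ⟨D, hD, hsD, hDr⟩ := h.local (γ s) isOpen_univ (mem_univ _)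
    have hc : ContinuousWithinAt γ (Icc 0 T) s := hγ.1 s hs
    have h2 : γ ⁻¹' D ∈ 𝓝[Icc 0 T] s := hc (hD.mem_nhds hsD)
    obtain ⟨δ, hδ, hδD⟩ := Metric.mem_nhdsWithin_iff.mp h2
    have h3 : Metric.ball s δ ∩ Icc 0 T ∈ 𝓝[Icc 0 T] s :=
      inter_mem (mem_nhdsWithin_of_mem_nhds (Metric.ball_mem_nhds s hδ)) self_mem_nhdsWithin
    filter_upwards [h3] with t ht
    apply hDr
    have hball : ∀ r ∈ uIcc s t, γ r ∈ D := by
      intro r hr
      apply hδD
      refine ⟨?_, ?_⟩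
      · have h4 : r ∈ uIcc s t := hr
        have h5 : |r - s| ≤ |t - s| := abs_sub_left_of_mem_uIcc hr
        have h6 : |t - s| < δ := by
          have := ht.1
          rwa [Metric.mem_ball, Real.dist_eq] at this
        rw [Metric.mem_ball, Real.dist_eq]
        linarith
      · exact (uIcc_subset_Icc hs ht.2) hr
    rcases le_total s t with hst | hst
    · rw [uIcc_of_le hst] at hball
      exact Relation.ReflTransGen.single (hγ.step hs ht.2 hst hball)
    · rw [uIcc_of_ge hst] at hball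
      exact Relation.ReflTransGen.single (hγ.step ht.2 hs hst hball).symm

theorem IsPoissonHomeo.reach [T2Space M] [IsManifold (𝓡 n) ∞ M] {φ : M ≃ₜ M}
    (h : IsPoissonHomeo P φ) {y z : M} (hs : Reach P univ y z) :
    Reach P univ (φ y) (φ z) := by
  induction hs with
  | refl => exact Relation.ReflTransGen.refl
  | tail _ hs ih => exact ih.trans (h.step hs)

theorem IsPoissonHomeo.image_leaf [T2Space M] [IsManifold (𝓡 n) ∞ M] {φ : M ≃ₜ M}
    (h : IsPoissonHomeo P φ) (x : M) :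
    φ '' {y | Reach P univ x y} = {y | Reach P univ (φ x) y} := by
  ext z
  constructor
  · rintro ⟨y, hy, rfl⟩
    exact h.reach hy
  · intro hz
    refine ⟨φ.symm z, ?_, by simp⟩
    have := h.symm.reach hz
    rwa [Homeomorph.symm_apply_apply] at this

theorem IsPoissonHomeo.continuous_leafTop [T2Space M] [IsManifold (𝓡 n) ∞ M] {φ : M ≃ₜ M}
    (h : IsPoissonHomeo P φ) : @Continuous M M (leafTop P) (leafTop P) φ := by
  refine @Continuous.mk M M (leafTop P) (leafTop P) φ ?_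
  intro s hs z hz
  obtain ⟨U, hU, hzU, hUs⟩ := hs (φ z) hz
  obtain ⟨D, hD, hzD, hDr⟩ := h.local z hU hzU
  exact ⟨D, hD, hzD, fun y hy => hUs _ (hDr y hy)⟩

/-- **Main theorem.** -/
theorem main [T2Space M] [IsManifold (𝓡 n) ∞ M] (P : PoissonStructure n M) (φ : M ≃ₜ M)
    (h : IsPoissonHomeo P φ) (L : Set M) (hL : IsLeaf P L) :
    IsLeaf P (φ '' L) ∧
      @IsHomeomorph L (φ '' L) (leafTopOn P L) (leafTopOn P (φ '' L)) (φ.toEquiv.image L) := by
  constructor
  · obtain ⟨x, rfl⟩ := hL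
    exact ⟨φ x, h.image_leaf x⟩
  · letI t1 : TopologicalSpace L := leafTopOn P L
    let t2 : TopologicalSpace (φ '' L) := leafTopOn P (φ '' L)
    have hc1 : @Continuous L (φ '' L) t1 t2 (φ.toEquiv.image L) := by
      refine continuous_induced_rng.mpr ?_
      show @Continuous L M t1 (leafTop P) (fun p => φ p.1)
      exact @Continuous.comp L M M t1 (leafTop P) (leafTop P) _ _ h.continuous_leafTop
        continuous_induced_dom
    have hc2 : @Continuous (φ '' L) L t2 t1 (φ.toEquiv.image L).symm := by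
      refine continuous_induced_rng.mpr ?_
      have h1 : (Subtype.val ∘ (φ.toEquiv.image L).symm : φ '' L → M)
          = fun p => φ.symm p.1 := by
        funext p
        have h2 : φ ((φ.toEquiv.image L).symm p : M) = p.1 := by
          have := (φ.toEquiv.image L).apply_symm_apply p
          exact congrArg Subtype.val this
        show ((φ.toEquiv.image L).symm p : M) = φ.symm p.1
        rw [← h2, Homeomorph.symm_apply_apply]
      show @Continuous (φ '' L) M t2 (leafTop P) (Subtype.val ∘ (φ.toEquiv.image L).symm)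
      rw [h1]
      exact @Continuous.comp (φ '' L) M M t2 (leafTop P) (leafTop P) _ _
        h.symm.continuous_leafTop continuous_induced_dom
    let e : L ≃ₜ (φ '' L) := ⟨φ.toEquiv.image L, hc1, hc2⟩
    exact e.isHomeomorph

end Pool.Agent.H.MP_5d95cf_gt
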