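import Pool.Agent.H.MP_5d95cf_gt.Fields

namespace Pool.Agent.H.MP_5d95cf_gt

open Set Metric
open scoped Manifold ContDiff Topology NNReal

variable {n : ℕ} {M : Type*} [TopologicalSpace M] [ChartedSpace (Eu n) M]
variable {P : PoissonStructure n M} {m : ℕ} {y0 : M}

/-- The first coordinates. -/
noncomputable def Frame.A (F : Frame P m) (p : M) : Fin m → ℝ := fun i => F.a i p

/-- The plaque map. -/
noncomputable def psi (F : Frame P m) (ch : LChart n y0) (v : Fin m → ℝ) (y : M) : M :=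
  ch.σ (phi (vf F ch) v (ch.X y))

theorem IsTraj.isCtl {H : Sm n M} {γ : ℝ → M} {T : ℝ} (h : IsTraj P H γ T) :
    IsCtl P (fun _ : Unit => H) (fun _ _ => 1) γ T := by
  refine ⟨h.1, fun f t ht => ?_, fun _ => ⟨1, fun t _ => by simp⟩⟩
  simpa using h.2 f t ht

/-- Good neighbourhoods. -/
structure Good (F : Frame P m) (ch : LChart n y0) (K C r ε : ℝ) (V' : Set M) : Prop where
  nice : NiceFam (vf F ch) K C
  r_pos : 0 < r
  r_le : r ≤ ch.r
  ε_pos : 0 < ε
  ε_lt : ε < 1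
  small : m * ε * C * 2 ≤ r / 2
  sub : ∀ z ∈ ball (ch.X y0) r, ch.σ z ∈ F.W ∩ V'

/-- The small neighbourhood. -/
def nbd (F : Frame P m) (ch : LChart n y0) (r ε : ℝ) : Set M :=
  {p | p ∈ ch.V ∧ ‖ch.X p - ch.X y0‖ < r / 2 ∧ ∀ i, |F.a i p - F.a i y0| < ε / 2}

theorem isOpen_nbd (F : Frame P m) (ch : LChart n y0) (r ε : ℝ) : IsOpen (nbd F ch r ε) := by
  have h1 : IsOpen {p : M | ‖ch.X p - ch.X y0‖ < r / 2} :=
    isOpen_lt ((ch.X.contMDiff.continuous.sub continuous_const).norm) continuous_const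
  have h2 : IsOpen {p : M | ∀ i, |F.a i p - F.a i y0| < ε / 2} := by
    rw [ofPred_forall]
    exact isOpen_iInter_of_finite fun i =>
      isOpen_lt (((F.a i).contMDiff.continuous.sub continuous_const).abs) continuous_const
  exact ch.V_open.inter (h1.inter h2)

section

variable {F : Frame P m} {ch : LChart n y0} {K C r ε : ℝ} {V' : Set M}

theorem Good.mem_nbd (h : Good F ch K C r ε V') : y0 ∈ nbd F ch r ε := by
  refine ⟨ch.mem, ?_, fun i => ?_⟩
  · simpa using h.r_pos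
  · simpa using h.ε_pos

theorem Good.nbd_sub (h : Good F ch K C r ε V') {p : M} (hp : p ∈ nbd F ch r ε) :
    p ∈ F.W ∩ V' := by
  have h1 : ch.X p ∈ ball (ch.X y0) r := by
    rw [mem_ball, dist_eq_norm]
    linarith [hp.2.1, h.r_pos]
  have := h.sub _ h1
  rwa [ch.σ_X p hp.1] at this

theorem Good.norm_A_sub (h : Good F ch K C r ε V') {y z : M} (hy : y ∈ nbd F ch r ε)
    (hz : z ∈ nbd F ch r ε) : ‖F.A z - F.A y‖ < ε := by
  rw [pi_norm_lt_iff h.ε_pos]
  intro i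
  have h1 := hy.2.2 i
  have h2 := hz.2.2 i
  rw [abs_lt] at h1 h2
  show |F.a i z - F.a i y| < ε
  rw [abs_lt]
  constructor <;> linarith

theorem Good.flow_mem (h : Good F ch K C r ε V') {y : M} (hy : y ∈ nbd F ch r ε)
    {v : Fin m → ℝ} (hv : ‖v‖ ≤ ε) {t : ℝ} (ht : t ∈ Icc (-1 : ℝ) 2) :
    flow (vf F ch) v (ch.X y) t ∈ ball (ch.X y0) r := by
  rw [mem_ball, dist_eq_norm]
  have h1 := h.nice.norm_flow_sub_le v (ch.X y) ht
  have h2 : (m : ℝ) * ‖v‖ * C * |t| ≤ m * ε * C * 2 := by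
    have h3 : |t| ≤ 2 := abs_le.mpr ⟨by linarith [ht.1], ht.2⟩
    have := h.nice.M_nonneg
    have := h.ε_pos
    gcongr
  have h4 : flow (vf F ch) v (ch.X y) t - ch.X y0
      = (flow (vf F ch) v (ch.X y) t - ch.X y) + (ch.X y - ch.X y0) := by abel
  rw [h4]
  have h5 := norm_add_le (flow (vf F ch) v (ch.X y) t - ch.X y) (ch.X y - ch.X y0)
  have h6 := hy.2.1
  have h7 := h.small
  linarith

theorem Good.curve_mem (h : Good F ch K C r ε V') {y : M} (hy : y ∈ nbd F ch r ε)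
    {v : Fin m → ℝ} (hv : ‖v‖ ≤ ε) {t : ℝ} (ht : t ∈ Icc (-1 : ℝ) 2) :
    ch.σ (flow (vf F ch) v (ch.X y) t) ∈ ch.V ∧
    ch.σ (flow (vf F ch) v (ch.X y) t) ∈ F.W ∩ V' := by
  have h1 := h.flow_mem hy hv ht
  exact ⟨ch.σ_mem _ (ball_subset_ball h.r_le h1), h.sub _ h1⟩

theorem Good.curve_deriv [T2Space M] [IsManifold (𝓡 n) ∞ M] (h : Good F ch K C r ε V') {y : M}
    (hy : y ∈ nbd F ch r ε)
    {v : Fin m → ℝ} (hv : ‖v‖ ≤ ε) (f : Sm n M) {t : ℝ} (ht : t ∈ Icc (-1 : ℝ) 2) :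
    HasDerivWithinAt (fun s => f (ch.σ (flow (vf F ch) v (ch.X y) s)))
      (∑ j, v j * F.Y j f (ch.σ (flow (vf F ch) v (ch.X y) t))) (Icc (-1 : ℝ) 2) t := by
  set u := flow (vf F ch) v (ch.X y) with hu
  have h1 : ∀ t ∈ Icc (-1 : ℝ) 2, u t ∈ ball (ch.X y0) ch.r := fun t ht =>
    ball_subset_ball h.r_le (h.flow_mem hy hv ht)
  have h2 : HasDerivWithinAt u (comb (vf F ch) v (u t)) (Icc (-1 : ℝ) 2) t :=
    (h.nice.flow_spec v (ch.X y)).2 t ht
  have h3 : comb (vf F ch) v (u t) = ch.vec (∑ j, v j • F.YD j (ch.σ (u t))) := by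
    conv_lhs => rw [← ch.X_σ _ (h1 t ht)]
    rw [comb_vf F ch v (ch.σ_mem _ (h1 t ht))]
  rw [h3] at h2
  have hPD : IsPD (ch.σ (u t)) (∑ j, v j • F.YD j (ch.σ (u t))) :=
    Frame.isPD_sum _ fun j _ => Frame.isPD_smul (F.isPD_YD j _) _
  have h4 := hasDeriv_of_chart ch h1 ht hPD h2 f
  simpa [LinearMap.sum_apply, F.YD_apply] using h4

theorem Good.curve_cont [T2Space M] [IsManifold (𝓡 n) ∞ M] (h : Good F ch K C r ε V') {y : M}
    (hy : y ∈ nbd F ch r ε) {v : Fin m → ℝ} (hv : ‖v‖ ≤ ε) :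
    ContinuousOn (fun s => ch.σ (flow (vf F ch) v (ch.X y) s)) (Icc (-1 : ℝ) 2) := by
  refine ch.σ_cont.comp (fun t ht =>
    ((h.nice.flow_spec v (ch.X y)).2 t ht).continuousWithinAt) fun t ht => ?_
  exact ball_subset_ball h.r_le (h.flow_mem hy hv ht)

theorem Good.curve_ctl [T2Space M] [IsManifold (𝓡 n) ∞ M] (h : Good F ch K C r ε V') {y : M}
    (hy : y ∈ nbd F ch r ε) {v : Fin m → ℝ} (hv : ‖v‖ ≤ ε) :
    IsCtl P F.g (fun k t => ∑ j, v j * F.b k j (ch.σ (flow (vf F ch) v (ch.X y) t)))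
      (fun s => ch.σ (flow (vf F ch) v (ch.X y) s)) 1 := by
  have hsub : Icc (0 : ℝ) 1 ⊆ Icc (-1 : ℝ) 2 := Icc_subset_Icc (by norm_num) (by norm_num)
  refine ⟨(h.curve_cont hy hv).mono hsub, fun f t ht => ?_, fun k => ?_⟩
  · have h1 := (h.curve_deriv hy hv f (hsub ht)).mono hsub
    have h2 : (∑ j, v j * F.Y j f (ch.σ (flow (vf F ch) v (ch.X y) t)))
        = ∑ k, (∑ j, v j * F.b k j (ch.σ (flow (vf F ch) v (ch.X y) t))) *
          P.br f (F.g k) (ch.σ (flow (vf F ch) v (ch.X y) t)) := by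
      simp only [F.Y_apply, Finset.mul_sum, Finset.sum_mul, mul_assoc]
      rw [Finset.sum_comm]
    rw [h2] at h1
    exact h1
  · apply Bd.of_cont
    refine continuousOn_finsetSum _ fun j _ => continuousOn_const.mul ?_
    exact continuousOn_comp_curve ((h.curve_cont hy hv).mono hsub) (F.b k j)

theorem Good.flow_zero_at (h : Good F ch K C r ε V') {y : M} (hy : y ∈ nbd F ch r ε)
    (v : Fin m → ℝ) : ch.σ (flow (vf F ch) v (ch.X y) 0) = y := by
  rw [h.nice.flow_zero, ch.σ_X y hy.1]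

theorem Good.T_zero_curve [T2Space M] [IsManifold (𝓡 n) ∞ M] (h : Good F ch K C r ε V') {y : M}
    (hy : y ∈ nbd F ch r ε) (hT : ∀ f g, F.T f g y = 0) {v : Fin m → ℝ} (hv : ‖v‖ ≤ ε)
    {t : ℝ} (ht : t ∈ Icc (0 : ℝ) 1) (f g : Sm n M) :
    F.T f g (ch.σ (flow (vf F ch) v (ch.X y) t)) = 0 := by
  have hsub : Icc (0 : ℝ) 1 ⊆ Icc (-1 : ℝ) 2 := Icc_subset_Icc (by norm_num) (by norm_num)
  refine T_zero_along F ch (h.curve_ctl hy hv) (fun t ht => (h.curve_mem hy hv (hsub ht)).1)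
    (fun t ht => (h.curve_mem hy hv (hsub ht)).2.1) ?_ t ht f g
  intro f g
  show F.T f g (ch.σ (flow (vf F ch) v (ch.X y) 0)) = 0
  rw [h.flow_zero_at hy]
  exact hT f g

theorem Good.hasFDerivAt [T2Space M] [IsManifold (𝓡 n) ∞ M] (h : Good F ch K C r ε V') {y : M}
    (hy : y ∈ nbd F ch r ε) (hT : ∀ f g, F.T f g y = 0) {v : Fin m → ℝ} (hv : ‖v‖ ≤ ε) :
    HasFDerivAt (fun w => phi (vf F ch) w (ch.X y))
      (∑ i, (ContinuousLinearMap.proj (R := ℝ) (φ := fun _ : Fin m => ℝ) i).smulRight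
        (vf F ch i (phi (vf F ch) v (ch.X y)))) v := by
  have hsub : Icc (0 : ℝ) 1 ⊆ Icc (-1 : ℝ) 2 := Icc_subset_Icc (by norm_num) (by norm_num)
  refine h.nice.hasFDerivAt_phi (hv.trans_lt h.ε_lt) (ch.X y) ?_
  intro t ht i j
  have h1 := h.curve_mem hy hv (hsub ht)
  have h2 := vf_comm F ch h1.1 h1.2.1 (fun f g => h.T_zero_curve hy hT hv ht f g) i j
  rwa [ch.X_σ _ (ball_subset_ball h.r_le (h.flow_mem hy hv (hsub ht)))] at h2

/-- One Hamiltonian step inside the small neighbourhood stays in the plaque. -/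
theorem Good.step [T2Space M] [IsManifold (𝓡 n) ∞ M] (h : Good F ch K C r ε V') {y : M}
    (hy : y ∈ nbd F ch r ε) (hT : ∀ f g, F.T f g y = 0) {z z' : M}
    (hzT : ∀ f g, F.T f g z = 0)
    (hzX : ch.X z = phi (vf F ch) (F.A z - F.A y) (ch.X y))
    (hs : Step P (nbd F ch r ε) z z') :
    z' ∈ nbd F ch r ε ∧ (∀ f g, F.T f g z' = 0) ∧
      ch.X z' = phi (vf F ch) (F.A z' - F.A y) (ch.X y) := by
  obtain ⟨H, γ, T, hT0, hγ0, hγT, hγU, hγ⟩ := hs
  have hTz : ∀ t ∈ Icc 0 T, ∀ f g, F.T f g (γ t) = 0 := by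
    refine T_zero_along F ch hγ.isCtl (fun t ht => (hγU t ht).1)
      (fun t ht => (h.nbd_sub (hγU t ht)).1) ?_
    rw [hγ0]
    exact hzT
  have hTT : T ∈ Icc 0 T := right_mem_Icc.mpr hT0
  have hz' : z' ∈ nbd F ch r ε := hγT ▸ hγU T hTT
  refine ⟨hz', hγT ▸ hTz T hTT, ?_⟩
  -- the two curves
  let w : ℝ → Fin m → ℝ := fun t => F.A (γ t) - F.A y
  let w' : ℝ → Fin m → ℝ := fun t j => P.br (F.a j) H (γ t)
  have hw : ∀ t ∈ Icc 0 T, HasDerivWithinAt w (w' t) (Icc 0 T) t := by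
    intro t ht
    rw [hasDerivWithinAt_pi]
    intro j
    exact (hγ.2 (F.a j) t ht).sub_const (F.A y j)
  have hwn : ∀ t ∈ Icc 0 T, ‖w t‖ ≤ ε := fun t ht => (h.norm_A_sub hy (hγU t ht)).le
  have hw'b : ∃ B : ℝ, 0 ≤ B ∧ ∀ t ∈ Icc 0 T, ‖w' t‖ ≤ B := by
    have hc : ContinuousOn w' (Icc 0 T) :=
      continuousOn_pi.mpr fun j => continuousOn_comp_curve hγ.1 (P.br (F.a j) H)
    obtain ⟨B, hB⟩ := isCompact_Icc.exists_bound_of_continuousOn hc
    exact ⟨|B|, abs_nonneg B, fun t ht => (hB t ht).trans (le_abs_self B)⟩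
  obtain ⟨B, hB0, hB⟩ := hw'b
  have hu : ∀ t ∈ Icc 0 T, HasDerivWithinAt (fun t => ch.X (γ t))
      (comb (vf F ch) (w' t) (ch.X (γ t))) (Icc 0 T) t := by
    intro t ht
    have h1 := hγ.isCtl.hasDeriv_X ch ht
    have h2 : ch.vec (∑ _k : Unit, (1 : ℝ) • P.ham H (γ t))
        = comb (vf F ch) (w' t) (ch.X (γ t)) := by
      rw [comb_vf F ch _ (hγU t ht).1]
      simp only [Finset.univ_unique, Finset.sum_singleton, one_smul]
      unfold LChart.vec
      refine Finset.sum_congr rfl fun a _ => ?_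
      congr 1
      rw [P.ham_apply, LinearMap.sum_apply, F.br_eq_of_T _ _ (hTz t ht _ _)]
      refine Finset.sum_congr rfl fun j _ => ?_
      rw [LinearMap.smul_apply, F.YD_apply, smul_eq_mul]
    rw [h2] at h1
    exact h1
  have hu2 : ∀ t ∈ Icc 0 T, HasDerivWithinAt (fun t => phi (vf F ch) (w t) (ch.X y))
      (comb (vf F ch) (w' t) (phi (vf F ch) (w t) (ch.X y))) (Icc 0 T) t := by
    intro t ht
    have h1 := h.hasFDerivAt hy hT (hwn t ht)
    have h2 := h1.comp_hasDerivWithinAt t (hw t ht)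
    have h3 : (∑ i, (ContinuousLinearMap.proj (R := ℝ) (φ := fun _ : Fin m => ℝ) i).smulRight
        (vf F ch i (phi (vf F ch) (w t) (ch.X y)))) (w' t)
        = comb (vf F ch) (w' t) (phi (vf F ch) (w t) (ch.X y)) := by
      simp [comb]
    rw [h3] at h2
    exact h2
  have hK := h.nice.K_nonneg
  have hlip : ∀ t ∈ Ico 0 T, LipschitzOnWith (⟨m * B * K, by positivity⟩ : ℝ≥0)
      (comb (vf F ch) (w' t)) univ := by
    intro t ht
    refine LipschitzWith.lipschitzOnWith (LipschitzWith.of_dist_le_mul fun x x' => ?_)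
    rw [dist_eq_norm, dist_eq_norm]
    refine (h.nice.comb_lip (w' t) x x').trans ?_
    show _ ≤ m * B * K * ‖x - x'‖
    have := hB t ⟨ht.1, ht.2.le⟩
    gcongr
  have huniq := ODE_solution_unique_of_mem_Icc_right (v := fun t => comb (vf F ch) (w' t))
    (s := fun _ => univ) (a := 0) (b := T)
    (f := fun t => ch.X (γ t)) (g := fun t => phi (vf F ch) (w t) (ch.X y)) hlip
    (fun t ht => (hu t ht).continuousWithinAt)
    (fun t ht => (hu t ⟨ht.1, ht.2.le⟩).mono_of_mem_nhdsWithin (Icc_mem_nhdsGE_of_mem ht))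
    (fun _ _ => mem_univ _)
    (fun t ht => (hu2 t ht).continuousWithinAt)
    (fun t ht => (hu2 t ⟨ht.1, ht.2.le⟩).mono_of_mem_nhdsWithin (Icc_mem_nhdsGE_of_mem ht))
    (fun _ _ => mem_univ _)
    (by
      show ch.X (γ 0) = phi (vf F ch) (F.A (γ 0) - F.A y) (ch.X y)
      rw [hγ0]
      exact hzX)
  have := huniq hTT
  show ch.X z' = phi (vf F ch) (F.A z' - F.A y) (ch.X y)
  rw [← hγT]
  exact this

/-- Points reachable inside the small neighbourhood lie on the plaque. -/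
theorem Good.reach [T2Space M] [IsManifold (𝓡 n) ∞ M] (h : Good F ch K C r ε V') {y : M}
    (hy : y ∈ nbd F ch r ε) (hT : ∀ f g, F.T f g y = 0) {z : M}
    (hs : Reach P (nbd F ch r ε) y z) :
    z ∈ nbd F ch r ε ∧ (∀ f g, F.T f g z = 0) ∧
      ch.X z = phi (vf F ch) (F.A z - F.A y) (ch.X y) := by
  induction hs with
  | refl =>
    refine ⟨hy, hT, ?_⟩
    rw [sub_self]
    have h1 := h.nice.norm_flow_sub_le 0 (ch.X y) (t := 1) ⟨by norm_num, by norm_num⟩
    rw [norm_zero, mul_zero, zero_mul, zero_mul] at h1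
    exact (sub_eq_zero.mp (norm_le_zero_iff.mp h1)).symm
  | tail _ hstep ih =>
    exact h.step hy hT ih.2.1 ih.2.2 hstep

theorem Good.reach_eq [T2Space M] [IsManifold (𝓡 n) ∞ M] (h : Good F ch K C r ε V') {y : M}
    (hy : y ∈ nbd F ch r ε) (hT : ∀ f g, F.T f g y = 0) {z : M}
    (hs : Reach P (nbd F ch r ε) y z) : z = psi F ch (F.A z - F.A y) y := by
  have h1 := h.reach hy hT hs
  rw [psi, ← h1.2.2, ch.σ_X z h1.1.1]

theorem Good.continuousAt_psi [T2Space M] [IsManifold (𝓡 n) ∞ M] (h : Good F ch K C r ε V')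
    {y z : M} (hy : y ∈ nbd F ch r ε) (hz : z ∈ nbd F ch r ε) :
    ContinuousAt (fun p : (Fin m → ℝ) × M => psi F ch p.1 p.2) (F.A z - F.A y, y) := by
  have hv := h.norm_A_sub hy hz
  have h1 : ContinuousAt (fun p : (Fin m → ℝ) × M => phi (vf F ch) p.1 (ch.X p.2))
      (F.A z - F.A y, y) := by
    have h2 := h.nice.continuousAt_phi (hv.le.trans h.ε_lt.le) (ch.X y)
    have h3 : Continuous (fun p : (Fin m → ℝ) × M => (p.1, ch.X p.2)) :=
      continuous_fst.prodMk (ch.X.contMDiff.continuous.comp continuous_snd)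
    exact ContinuousAt.comp (f := fun p : (Fin m → ℝ) × M => (p.1, ch.X p.2))
      (x := (F.A z - F.A y, y)) h2 h3.continuousAt
  have h4 : phi (vf F ch) (F.A z - F.A y) (ch.X y) ∈ ball (ch.X y0) ch.r :=
    ball_subset_ball h.r_le (h.flow_mem hy hv.le ⟨by norm_num, by norm_num⟩)
  have h5 : ContinuousAt ch.σ (phi (vf F ch) (F.A z - F.A y) (ch.X y)) :=
    ch.σ_cont.continuousAt (isOpen_ball.mem_nhds h4)
  exact ContinuousAt.comp (f := fun p : (Fin m → ℝ) × M => phi (vf F ch) p.1 (ch.X p.2))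
    (x := (F.A z - F.A y, y)) h5 h1

end

/-- Existence of good neighbourhoods. -/
theorem exists_good (F : Frame P m) (ch : LChart n y0) (hW : y0 ∈ F.W) {V' : Set M}
    (hV' : IsOpen V') (hy0 : y0 ∈ V') : ∃ K C r ε, Good F ch K C r ε V' := by
  obtain ⟨K, C, hnice⟩ := exists_niceFam (vf F ch) (vf_contDiff F ch) (vf_compact F ch)
  have hmem : ch.X y0 ∈ ball (ch.X y0) ch.r := mem_ball_self ch.r_pos
  have h1 : ContinuousAt ch.σ (ch.X y0) := ch.σ_cont.continuousAt (isOpen_ball.mem_nhds hmem)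
  have h2 : F.W ∩ V' ∈ 𝓝 (ch.σ (ch.X y0)) := by
    rw [ch.σ_X y0 ch.mem]
    exact (F.W_open.inter hV').mem_nhds ⟨hW, hy0⟩
  obtain ⟨r1, hr1, hr1s⟩ := Metric.mem_nhds_iff.mp (h1.preimage_mem_nhds h2)
  have hCn := hnice.M_nonneg
  refine ⟨K, C, min r1 ch.r, min (1 / 2) (min r1 ch.r / (4 * (m * C + 1))), hnice,
    lt_min hr1 ch.r_pos, min_le_right _ _, ?_, ?_, ?_, ?_⟩
  · have : 0 < min r1 ch.r := lt_min hr1 ch.r_pos
    positivity
  · exact (min_le_left _ _).trans_lt (by norm_num)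
  · have hr : 0 < min r1 ch.r := lt_min hr1 ch.r_pos
    set r := min r1 ch.r with hrdef
    have hε : min (1 / 2) (r / (4 * (m * C + 1))) ≤ r / (4 * (m * C + 1)) := min_le_right _ _
    have hpos : 0 < (m : ℝ) * C + 1 := by positivity
    calc (m : ℝ) * min (1 / 2) (r / (4 * (m * C + 1))) * C * 2
        ≤ m * (r / (4 * (m * C + 1))) * C * 2 := by gcongr
      _ = (m * C) / (m * C + 1) * (r / 2) := by field_simp; ring
      _ ≤ 1 * (r / 2) := by
          apply mul_le_mul_of_nonneg_right _ (by positivity)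
          rw [div_le_one hpos]
          linarith
      _ = r / 2 := one_mul _
  · intro z hz
    exact hr1s (ball_subset_ball (min_le_left _ _) hz)

end Pool.Agent.H.MP_5d95cf_gt
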