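import Pool.Agent.H.MP_5d95cf_gt.Realize

namespace Pool.Agent.H.MP_5d95cf_gt

open Set Metric Matrix
open scoped Manifold ContDiff Topology

variable {n : ℕ} {M : Type*} [TopologicalSpace M] [ChartedSpace (Eu n) M]

/-- The matrix of brackets at a point. -/
noncomputable def brMat (P : PoissonStructure n M) {m : ℕ} (a g : Fin m → Sm n M) (p : M) :
    Matrix (Fin m) (Fin m) ℝ := Matrix.of fun i j => P.br (a i) (g j) p

/-- The rank of the Poisson tensor at `p` is at least `m`. -/
def RankGE (P : PoissonStructure n M) (m : ℕ) (p : M) : Prop :=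
  ∃ a g : Fin m → Sm n M, (brMat P a g p).det ≠ 0

theorem rankGE_zero (P : PoissonStructure n M) (p : M) : RankGE P 0 p :=
  ⟨Fin.elim0, Fin.elim0, by simp⟩

theorem continuous_det (P : PoissonStructure n M) {m : ℕ} (a g : Fin m → Sm n M) :
    Continuous fun p => (brMat P a g p).det := by
  apply Continuous.matrix_det
  refine continuous_matrix fun i j => ?_
  exact (P.br (a i) (g j)).contMDiff.continuous

theorem isOpen_rankGE (P : PoissonStructure n M) (m : ℕ) : IsOpen {p | RankGE P m p} := by
  rw [isOpen_iff_mem_nhds]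
  rintro p ⟨a, g, h⟩
  have h1 := (continuous_det P a g).continuousAt (x := p)
  filter_upwards [h1.eventually_ne h] with q hq
  exact ⟨a, g, hq⟩

theorem RankGE.le [T2Space M] [IsManifold (𝓡 n) ∞ M] {P : PoissonStructure n M} {m : ℕ} {p : M}
    (h : RankGE P m p) : m ≤ n := by
  obtain ⟨a, g, hdet⟩ := h
  obtain ⟨ch⟩ := exists_LChart (n := n) p
  let A : Matrix (Fin m) (Fin n) ℝ := fun i c => fderiv ℝ (ch.rep (a i)) (ch.X p) (basisV n c)
  let B : Matrix (Fin n) (Fin m) ℝ := fun c j => P.br (ch.x c) (g j) p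
  have hAB : brMat P a g p = A * B := by
    ext i j
    rw [mul_apply]
    show P.br (a i) (g j) p = _
    rw [← P.ham_apply, ch.pd (a i) (ch.rep (a i)) (ch.rep_contDiff _)
      (fun q hq => ch.rep_eq _ hq) ch.mem (P.isPD_ham (g j) p)]
    rfl
  have hu : IsUnit (brMat P a g p) := by
    rw [isUnit_iff_isUnit_det]
    exact isUnit_iff_ne_zero.mpr hdet
  have h1 := rank_of_isUnit _ hu
  rw [Fintype.card_fin] at h1
  rw [← h1, hAB]
  refine (rank_mul_le_left A B).trans ?_
  exact (rank_le_card_width A).trans (by simp)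

/-- evaluation ring homomorphism -/
noncomputable def evR (p : M) : Sm n M →+* ℝ where
  toFun f := f p
  map_one' := rfl
  map_mul' _ _ := rfl
  map_zero' := rfl
  map_add' _ _ := rfl

theorem evR_apply (p : M) (f : Sm n M) : evR p f = f p := rfl

/-- Frames exist around points where the matrix of brackets is invertible. -/
theorem exists_frame (P : PoissonStructure n M) {m : ℕ} {y0 : M} (a g : Fin m → Sm n M)
    (hdet : (brMat P a g y0).det ≠ 0) : ∃ F : Frame P m, y0 ∈ F.W := by
  let Cm : Matrix (Fin m) (Fin m) (Sm n M) := Matrix.of fun i j => P.br (a i) (g j)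
  have hev : ∀ p, (evR p) Cm.det = (brMat P a g p).det := by
    intro p
    rw [RingHom.map_det]
    rfl
  set s0 : ℝ := (brMat P a g y0).det with hs0
  have hs0' : 0 < |s0| := abs_pos.mpr hdet
  let χ : ContDiffBump s0 := ⟨|s0| / 4, |s0| / 2, by positivity, by linarith⟩
  have hr : ContDiff ℝ ∞ (fun s => χ s * s⁻¹) := by
    rw [contDiff_iff_contDiffAt]
    intro s
    by_cases hs : s = 0
    · have hz' : s ∉ tsupport χ := by
        rw [ContDiffBump.tsupport_eq]
        intro h
        rw [mem_closedBall, Real.dist_eq] at h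
        have h' : |s - s0| ≤ |s0| / 2 := h
        rw [hs, zero_sub, abs_neg] at h'
        linarith
      have h5 := notMem_tsupport_iff_eventuallyEq.mp hz'
      have h4 : (fun s => χ s * s⁻¹) =ᶠ[𝓝 s] fun _ => 0 := by
        filter_upwards [h5] with w hw
        rw [hw]
        simp
      exact contDiffAt_const.congr_of_eventuallyEq h4
    · exact χ.contDiff.contDiffAt.mul (contDiffAt_inv ℝ hs)
  let ρ : Sm n M := compSm (fun s => χ s * s⁻¹) hr Cm.det
  let W : Set M := {p | |(brMat P a g p).det - s0| < |s0| / 4}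
  have hWo : IsOpen W :=
    isOpen_lt (((continuous_det P a g).sub continuous_const).abs) continuous_const
  have hρ : ∀ p ∈ W, ρ p * (brMat P a g p).det = 1 := by
    intro p hp
    have h1 : ρ p = χ (Cm.det p) * (Cm.det p)⁻¹ := rfl
    have h2 : Cm.det p = (brMat P a g p).det := hev p
    have h3 : χ ((brMat P a g p).det) = 1 := by
      apply χ.one_of_mem_closedBall
      rw [mem_closedBall, Real.dist_eq]
      exact (show |(brMat P a g p).det - s0| < |s0| / 4 from hp).le
    have h4 : (brMat P a g p).det ≠ 0 := by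
      intro h0
      have h5 : |(brMat P a g p).det - s0| < |s0| / 4 := hp
      rw [h0, zero_sub, abs_neg] at h5
      linarith
    rw [h1, h2, h3, one_mul, inv_mul_cancel₀ h4]
  refine ⟨⟨a, g, fun i j => ρ * Cm.adjugate i j, W, hWo, ?_, ?_⟩, ?_⟩
  · intro p hp i j
    have h1 : ∑ k, (ρ * Cm.adjugate i k) p * P.br (a k) (g j) p
        = ρ p * evR p ((Cm.adjugate * Cm) i j) := by
      rw [mul_apply, map_sum, Finset.mul_sum]
      refine Finset.sum_congr rfl fun k _ => ?_
      rw [Sm.mul_apply, map_mul, evR_apply, evR_apply]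
      show ρ p * Cm.adjugate i k p * P.br (a k) (g j) p
        = ρ p * (Cm.adjugate i k p * P.br (a k) (g j) p)
      ring
    rw [h1, adjugate_mul, Matrix.smul_apply, one_apply]
    by_cases hij : i = j
    · rw [if_pos hij, if_pos hij, smul_eq_mul, mul_one, hev, hρ p hp]
    · rw [if_neg hij, if_neg hij, smul_zero, map_zero, mul_zero]
  · intro p hp i j
    have h1 : ∑ k, P.br (a i) (g k) p * (ρ * Cm.adjugate k j) p
        = ρ p * evR p ((Cm * Cm.adjugate) i j) := by
      rw [mul_apply, map_sum, Finset.mul_sum]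
      refine Finset.sum_congr rfl fun k _ => ?_
      rw [Sm.mul_apply, map_mul, evR_apply, evR_apply]
      show P.br (a i) (g k) p * (ρ p * Cm.adjugate k j p)
        = ρ p * (P.br (a i) (g k) p * Cm.adjugate k j p)
      ring
    rw [h1, mul_adjugate, Matrix.smul_apply, one_apply]
    by_cases hij : i = j
    · rw [if_pos hij, if_pos hij, smul_eq_mul, mul_one, hev, hρ p hp]
    · rw [if_neg hij, if_neg hij, smul_zero, map_zero, mul_zero]
  · show |(brMat P a g y0).det - s0| < |s0| / 4
    rw [← hs0, sub_self, abs_zero]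
    positivity

/-- The defect vanishes where the rank is at most `m`. -/
theorem Frame.T_eq_zero {P : PoissonStructure n M} {m : ℕ} (F : Frame P m) {p : M}
    (hp : p ∈ F.W) (hr : ¬ RankGE P (m + 1) p) (f h : Sm n M) : F.T f h p = 0 := by
  by_contra hT
  apply hr
  refine ⟨Fin.cons f F.a, Fin.cons h F.g, ?_⟩
  intro hdet
  obtain ⟨x, hx0, hx⟩ := exists_mulVec_eq_zero_iff.mpr hdet
  have hrow0 : P.br f h p * x 0 + ∑ j : Fin m, P.br f (F.g j) p * x j.succ = 0 := by
    have h1 := congrFun hx 0
    simpa [mulVec, dotProduct, Fin.sum_univ_succ, brMat] using h1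
  have hrow : ∀ i : Fin m, P.br (F.a i) h p * x 0
      + ∑ j : Fin m, P.br (F.a i) (F.g j) p * x j.succ = 0 := by
    intro i
    have h1 := congrFun hx i.succ
    simpa [mulVec, dotProduct, Fin.sum_univ_succ, brMat] using h1
  have hxs : ∀ k : Fin m, x k.succ = -(∑ i, F.b k i p * P.br (F.a i) h p) * x 0 := by
    intro k
    have h1 : ∑ i, F.b k i p * (P.br (F.a i) h p * x 0
        + ∑ j : Fin m, P.br (F.a i) (F.g j) p * x j.succ) = 0 := by
      simp [hrow]
    have h2 : ∑ i, F.b k i p * (P.br (F.a i) h p * x 0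
        + ∑ j : Fin m, P.br (F.a i) (F.g j) p * x j.succ)
        = (∑ i, F.b k i p * P.br (F.a i) h p) * x 0
          + ∑ j : Fin m, (∑ i, F.b k i p * P.br (F.a i) (F.g j) p) * x j.succ := by
      simp only [mul_add, Finset.sum_add_distrib, Finset.mul_sum, Finset.sum_mul, mul_assoc]
      congr 1
      rw [Finset.sum_comm]
    rw [h2] at h1
    simp only [F.left p hp] at h1
    have h3 : ∑ j : Fin m, (if k = j then (1 : ℝ) else 0) * x j.succ = x k.succ := by simp
    rw [h3] at h1
    linarith
  have hx00 : x 0 = 0 := by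
    have h1 : (F.T f h p) * x 0 = 0 := by
      rw [F.T_apply]
      have h2 : ∑ j : Fin m, P.br f (F.g j) p * x j.succ
          = -(∑ i, ∑ j, P.br f (F.g i) p * F.b i j p * P.br (F.a j) h p) * x 0 := by
        rw [← Finset.sum_neg_distrib, Finset.sum_mul]
        refine Finset.sum_congr rfl fun i _ => ?_
        rw [hxs i, ← Finset.sum_neg_distrib, ← Finset.sum_neg_distrib, Finset.sum_mul,
          Finset.sum_mul, Finset.mul_sum]
        refine Finset.sum_congr rfl fun j _ => ?_
        ring
      rw [h2] at hrow0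
      linarith
    exact (mul_eq_zero.mp h1).resolve_left hT
  apply hx0
  funext i
  refine Fin.cases ?_ (fun k => ?_) i
  · exact hx00
  · rw [hxs k, hx00, mul_zero]
    rfl

end Pool.Agent.H.MP_5d95cf_gt
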