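import Pool.Agent.H.MP_5d95cf_gt.Plaque

namespace Pool.Agent.H.MP_5d95cf_gt

open Set Metric
open scoped Manifold ContDiff Topology NNReal

variable {n : ℕ} {M : Type*} [TopologicalSpace M] [ChartedSpace (Eu n) M]
variable {P : PoissonStructure n M} {m : ℕ} {y0 : M}

/-- Cutting off a function which is smooth on an interval. -/
theorem exists_cutoff (q : ℝ → ℝ) (hq : ContDiffOn ℝ ∞ q (Icc (-1 : ℝ) 2)) :
    ∃ q' : ℝ → ℝ, ContDiff ℝ ∞ q' ∧ ∀ t ∈ Icc (0 : ℝ) 1, q' =ᶠ[𝓝 t] q := by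
  let χ : ContDiffBump (1 / 2 : ℝ) := ⟨1, 5 / 4, by norm_num, by norm_num⟩
  refine ⟨fun t => χ t * q t, ?_, ?_⟩
  · rw [contDiff_iff_contDiffAt]
    intro t
    by_cases ht : t ∈ Ioo (-1 : ℝ) 2
    · exact χ.contDiff.contDiffAt.mul
        ((hq.contDiffAt (Icc_mem_nhds ht.1 ht.2)))
    · have hz' : t ∉ tsupport χ := by
        rw [ContDiffBump.tsupport_eq]
        intro h
        apply ht
        rw [mem_closedBall, Real.dist_eq] at h
        have h' : |t - 1 / 2| ≤ 5 / 4 := h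
        rw [abs_le] at h'
        constructor <;> linarith
      have h5 := notMem_tsupport_iff_eventuallyEq.mp hz'
      have h4 : (fun t => χ t * q t) =ᶠ[𝓝 t] fun _ => 0 := by
        filter_upwards [h5] with w hw
        rw [hw]
        simp
      exact contDiffAt_const.congr_of_eventuallyEq h4
  · intro t ht
    have h1 : ∀ᶠ s in 𝓝 t, s ∈ Ioo (-(1 / 2) : ℝ) (3 / 2) :=
      Ioo_mem_nhds (by linarith [ht.1]) (by linarith [ht.2])
    filter_upwards [h1] with s hs
    have h2 : χ s = 1 := by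
      apply χ.one_of_mem_closedBall
      rw [mem_closedBall, Real.dist_eq]
      show |s - 1 / 2| ≤ 1
      rw [abs_le]
      constructor <;> linarith [hs.1, hs.2]
    rw [h2, one_mul]

/-- One dimensional chain rule for point derivations. -/
theorem IsPD.chain1 {p : M} {D : Sm n M →ₗ[ℝ] ℝ} (hD : IsPD p D)
    (τ : Sm n M) (F : ℝ → ℝ) (hF : ContDiff ℝ ∞ F) :
    D (compSm F hF τ) = deriv F (τ p) * D τ := by
  have h1 := hD.chain (ι := Unit) (fun _ => ContinuousLinearMap.id ℝ ℝ) (fun _ => (1 : ℝ))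
    (by intro w; simp) τ F hF
  rw [h1]
  simp only [Finset.univ_unique, Finset.sum_singleton]
  rfl

section

variable {F : Frame P m} {ch : LChart n y0} {K C r ε : ℝ} {V' : Set M}

theorem Good.curve_smooth [T2Space M] [IsManifold (𝓡 n) ∞ M] (h : Good F ch K C r ε V')
    {v : Fin m → ℝ} (hv : ‖v‖ ≤ ε) (f : Sm n M) :
    ContDiffOn ℝ ∞ (fun s => f (ch.σ (flow (vf F ch) v (ch.X y0) s))) (Icc (-1 : ℝ) 2) := by
  have hy := h.mem_nbd
  have h1 : ContDiff ℝ ∞ (comb (vf F ch) v) :=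
    ContDiff.sum fun j _ => (vf_contDiff F ch j).const_smul (v j)
  have h2 : ContDiffOn ℝ ∞ (flow (vf F ch) v (ch.X y0)) (Icc (-1 : ℝ) 2) := by
    refine ODE.contDiffOn_enat_Icc_of_hasDerivWithinAt (n := ⊤) (f := fun _ => comb (vf F ch) v)
      (u := univ) ?_ (h.nice.flow_spec v (ch.X y0)).2 (fun _ _ => mem_univ _)
    have : ContDiff ℝ ∞ (fun p : ℝ × Eu n => comb (vf F ch) v p.2) := h1.comp contDiff_snd
    exact this.contDiffOn
  have h3 : ContDiffOn ℝ ∞ (fun s => ch.rep f (flow (vf F ch) v (ch.X y0) s))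
      (Icc (-1 : ℝ) 2) := (ch.rep_contDiff f).comp_contDiffOn h2
  refine h3.congr fun t ht => ?_
  have h4 : flow (vf F ch) v (ch.X y0) t ∈ ball (ch.X y0) ch.r :=
    ball_subset_ball h.r_le (h.flow_mem hy hv ht)
  rw [ch.rep_eq f (ch.σ_mem _ h4), ch.X_σ _ h4]

/-- Linear growth of the first coordinates along the frame flows. -/
theorem Good.a_flow [T2Space M] [IsManifold (𝓡 n) ∞ M] (h : Good F ch K C r ε V')
    {y : M} (hy : y ∈ nbd F ch r ε) {v : Fin m → ℝ} (hv : ‖v‖ ≤ ε) (i : Fin m) {t : ℝ}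
    (ht : t ∈ Icc (-1 : ℝ) 2) :
    F.a i (ch.σ (flow (vf F ch) v (ch.X y) t)) = F.a i y + t * v i := by
  set Γ : ℝ → M := fun s => ch.σ (flow (vf F ch) v (ch.X y) s) with hΓ
  have hΓ0 : Γ 0 = y := h.flow_zero_at hy v
  have hd : ∀ s ∈ Icc (-1 : ℝ) 2,
      HasDerivWithinAt (fun s => F.a i (Γ s) - s * v i) 0 (Icc (-1 : ℝ) 2) s := by
    intro s hs
    have h1 := h.curve_deriv hy hv (F.a i) hs
    have h2 : ∑ j, v j * F.Y j (F.a i) (ch.σ (flow (vf F ch) v (ch.X y) s)) = v i := by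
      have hW := (h.curve_mem hy hv hs).2.1
      simp only [F.Y_a hW]
      simp
    rw [h2] at h1
    have h3 : HasDerivWithinAt (fun s : ℝ => s * v i) (v i) (Icc (-1 : ℝ) 2) s := by
      simpa using ((hasDerivWithinAt_id s (Icc (-1 : ℝ) 2)).mul_const (v i))
    have h4 := h1.sub h3
    rw [sub_self] at h4
    exact h4
  have h5 := (convex_Icc (-1 : ℝ) 2).norm_image_sub_le_of_norm_hasDerivWithin_le
    (f := fun s => F.a i (Γ s) - s * v i) (f' := fun _ => 0) (C := 0) hd (by simp)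
    (show (0 : ℝ) ∈ Icc (-1 : ℝ) 2 by constructor <;> norm_num) ht
  simp only [zero_mul, sub_zero] at h5
  have h6 := sub_eq_zero.mp (norm_le_zero_iff.mp h5)
  rw [hΓ0] at h6
  show F.a i (Γ t) = F.a i y + t * v i
  linarith

theorem Good.A_psi [T2Space M] [IsManifold (𝓡 n) ∞ M] (h : Good F ch K C r ε V')
    {y : M} (hy : y ∈ nbd F ch r ε) {v : Fin m → ℝ} (hv : ‖v‖ ≤ ε) :
    F.A (psi F ch v y) = F.A y + v := by
  funext i
  have := h.a_flow hy hv i (t := 1) ⟨by norm_num, by norm_num⟩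
  rw [one_mul] at this
  exact this

/-- Plaque points are reachable by one Hamiltonian step. -/
theorem Good.realize [T2Space M] [IsManifold (𝓡 n) ∞ M] (h : Good F ch K C r ε V')
    {v : Fin m → ℝ} (hv : ‖v‖ ≤ ε) :
    Reach P V' y0 (psi F ch v y0) := by
  have hy := h.mem_nbd
  by_cases hv0 : v = 0
  · have h1 := h.nice.norm_flow_sub_le v (ch.X y0) (t := 1) ⟨by norm_num, by norm_num⟩
    rw [hv0, norm_zero, mul_zero, zero_mul, zero_mul] at h1
    have h2 : psi F ch v y0 = y0 := by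
      rw [psi, phi, hv0, sub_eq_zero.mp (norm_le_zero_iff.mp h1), ch.σ_X y0 ch.mem]
    rw [h2]
    exact Relation.ReflTransGen.refl
  -- the curve
  set Γ : ℝ → M := fun s => ch.σ (flow (vf F ch) v (ch.X y0) s) with hΓ
  have hsub : Icc (0 : ℝ) 1 ⊆ Icc (-1 : ℝ) 2 := Icc_subset_Icc (by norm_num) (by norm_num)
  have hΓ0 : Γ 0 = y0 := h.flow_zero_at hy v
  have hΓcont : ContinuousOn Γ (Icc (-1 : ℝ) 2) := h.curve_cont hy hv
  have hΓsm : ∀ f : Sm n M, ContDiffOn ℝ ∞ (fun s => f (Γ s)) (Icc (-1 : ℝ) 2) :=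
    fun f => h.curve_smooth hv f
  have hctl := h.curve_ctl hy hv
  -- the square norm of v
  set N : ℝ := ∑ i, v i * v i with hN
  have hNpos : 0 < N := by
    obtain ⟨i, hi⟩ : ∃ i, v i ≠ 0 := by
      by_contra hcon
      push Not at hcon
      exact hv0 (funext hcon)
    have h1 : v i * v i ≤ N :=
      Finset.single_le_sum (f := fun i => v i * v i) (fun i _ => mul_self_nonneg _)
        (Finset.mem_univ i)
    have h2 : 0 < v i * v i := mul_self_pos.mpr hi
    linarith
  -- linear growth of the first coordinates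
  have hlin : ∀ i, ∀ t ∈ Icc (-1 : ℝ) 2, F.a i (Γ t) = F.a i y0 + t * v i :=
    fun i t ht => h.a_flow hy hv i ht
  -- the time function
  let τ : Sm n M := (1 / N) • ∑ i, v i • (F.a i - F.a i y0 • (1 : Sm n M))
  have hτ : ∀ t ∈ Icc (-1 : ℝ) 2, τ (Γ t) = t := by
    intro t ht
    show ((1 / N) • ∑ i, v i • (F.a i - F.a i y0 • (1 : Sm n M))) (Γ t) = t
    rw [Sm.smul_apply, Sm.sum_apply]
    simp only [Sm.smul_apply, Sm.sub_apply, Sm.one_apply, hlin _ t ht]
    have h1 : ∑ i, v i * (F.a i y0 + t * v i - F.a i y0 * 1) = t * N := by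
      rw [hN, Finset.mul_sum]
      exact Finset.sum_congr rfl fun i _ => by ring
    rw [h1]
    field_simp
  -- coefficient functions
  let c : Fin m → ℝ → ℝ := fun k t => ∑ j, v j * F.b k j (Γ t)
  have hcs : ∀ k, ContDiffOn ℝ ∞ (c k) (Icc (-1 : ℝ) 2) := fun k =>
    ContDiffOn.sum fun j _ => contDiffOn_const.mul (hΓsm (F.b k j))
  have hex1 := fun k => exists_cutoff (c k) (hcs k)
  have hex2 := fun k => exists_cutoff (fun t => F.g k (Γ t)) (hΓsm (F.g k))
  choose c' hc's hc'e using hex1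
  choose g' hg's hg'e using hex2
  let H : Sm n M := ∑ k, compSm (c' k) (hc's k) τ * (F.g k - compSm (g' k) (hg's k) τ)
  have hbr : ∀ f : Sm n M, ∀ t ∈ Icc (0 : ℝ) 1, P.br f H (Γ t)
      = ∑ k, c k t * P.br f (F.g k) (Γ t) := by
    intro f t ht
    have hD := P.isPD_ham' f (Γ t)
    have hτt : τ (Γ t) = t := hτ t (hsub ht)
    have h1 : P.br f H (Γ t) = ∑ k, (c k t * (P.br f (F.g k) (Γ t)
        - deriv (g' k) t * P.br f τ (Γ t))) := by
      rw [← P.ham'_apply]
      show P.ham' f (Γ t) (∑ k, compSm (c' k) (hc's k) τ * (F.g k - compSm (g' k) (hg's k) τ)) = _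
      rw [map_sum]
      refine Finset.sum_congr rfl fun k _ => ?_
      rw [hD, map_sub, hD.chain1, hD.chain1, Sm.sub_apply, compSm_apply, compSm_apply, hτt,
        (hc'e k t ht).self_of_nhds, (hg'e k t ht).self_of_nhds, sub_self, zero_mul, add_zero,
        P.ham'_apply, P.ham'_apply]
    have h2 : ∀ k, deriv (g' k) t = ∑ l, c l t * P.br (F.g k) (F.g l) (Γ t) := by
      intro k
      rw [(hg'e k t ht).deriv_eq]
      have h3 := h.curve_deriv hy hv (F.g k) (hsub ht)
      have h4 := h3.hasDerivAt (Icc_mem_nhds (by linarith [ht.1]) (by linarith [ht.2]))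
      rw [h4.deriv]
      simp only [F.Y_apply, Finset.mul_sum, c, Finset.sum_mul, mul_assoc]
      rw [Finset.sum_comm]
    have h5 : ∑ k, c k t * deriv (g' k) t = 0 := by
      have h6 : ∑ k, c k t * deriv (g' k) t
          = ∑ k, ∑ l, c k t * c l t * P.br (F.g k) (F.g l) (Γ t) := by
        refine Finset.sum_congr rfl fun k _ => ?_
        rw [h2, Finset.mul_sum]
        exact Finset.sum_congr rfl fun l _ => by ring
      have h7 : ∑ k, ∑ l, c k t * c l t * P.br (F.g k) (F.g l) (Γ t)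
          = -∑ k, ∑ l, c k t * c l t * P.br (F.g k) (F.g l) (Γ t) := by
        conv_lhs => rw [Finset.sum_comm]
        rw [← Finset.sum_neg_distrib]
        refine Finset.sum_congr rfl fun k _ => ?_
        rw [← Finset.sum_neg_distrib]
        refine Finset.sum_congr rfl fun l _ => ?_
        rw [P.skew (F.g l) (F.g k), Sm.neg_apply]
        ring
      rw [h6]
      linarith
    rw [h1]
    calc ∑ k, (c k t * (P.br f (F.g k) (Γ t) - deriv (g' k) t * P.br f τ (Γ t)))
        = ∑ k, c k t * P.br f (F.g k) (Γ t)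
          - (∑ k, c k t * deriv (g' k) t) * P.br f τ (Γ t) := by
          rw [Finset.sum_mul, ← Finset.sum_sub_distrib]
          exact Finset.sum_congr rfl fun k _ => by ring
      _ = _ := by rw [h5, zero_mul, sub_zero]
  refine Relation.ReflTransGen.single ⟨H, Γ, 1, zero_le_one, hΓ0, rfl, ?_, ?_, ?_⟩
  · intro t ht
    exact (h.curve_mem hy hv (hsub ht)).2.2
  · exact hΓcont.mono hsub
  · intro f t ht
    rw [hbr f t ht]
    exact hctl.der f t ht

end

end Pool.Agent.H.MP_5d95cf_gt
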